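import Mathlib

/-! Averages over `{0,1}^n` of clipped signed sums. -/

open Finset

namespace Pool.Agent.Lib.MP_3166d6_co

/-- clipping to `[-1, 1]` -/
noncomputable def cl (z : ℝ) : ℝ := max (-1) (min 1 z)

lemma cl_neg (z : ℝ) : cl (-z) = -cl z := by
  unfold cl
  rcases le_total z 1 with h1 | h1 <;> rcases le_total (-1) z with h2 | h2
  · rw [min_eq_right h1, max_eq_right h2, min_eq_right (by linarith), max_eq_right (by linarith)]
  · rw [min_eq_right h1, max_eq_left h2, min_eq_left (by linarith), max_eq_right (by norm_num)]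
    ring
  · rw [min_eq_left h1, min_eq_right (by linarith : -z ≤ 1), max_eq_left (by linarith),
      max_eq_right (by norm_num)]
  · linarith

lemma cl_mono {a b : ℝ} (h : a ≤ b) : cl a ≤ cl b :=
  max_le_max le_rfl (min_le_min le_rfl h)

lemma cl_le_one (z : ℝ) : cl z ≤ 1 := max_le (by norm_num) (min_le_left _ _)

lemma neg_one_le_cl (z : ℝ) : -1 ≤ cl z := le_max_left _ _

lemma cl_of_abs_le {z : ℝ} (h : |z| ≤ 1) : cl z = z := by
  have := abs_le.mp h
  unfold cl
  rw [min_eq_right this.2, max_eq_right this.1]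

lemma cl_lip {a b : ℝ} (h : a ≤ b) : cl b - cl a ≤ b - a := by
  unfold cl
  rcases le_total b 1 with h1 | h1 <;> rcases le_total a 1 with h2 | h2 <;>
  rcases le_total (-1) b with h3 | h3 <;> rcases le_total (-1) a with h4 | h4 <;>
  simp [h1, h2, h3, h4] <;> linarith

lemma cl_lower {x y : ℝ} (hx : 0 ≤ x) (hx2 : x ≤ 1 / 2) :
    2 * x * (1 - 4 * y ^ 2) ≤ cl (x + y) + cl (x - y) := by
  rcases le_total |y| (1 / 2) with hy | hy
  · have h := abs_le.mp hy
    rw [cl_of_abs_le (abs_le.mpr ⟨by linarith, by linarith⟩),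
      cl_of_abs_le (abs_le.mpr ⟨by linarith, by linarith⟩)]
    nlinarith [sq_nonneg y, mul_nonneg hx (sq_nonneg y)]
  · have h1 : 1 / 4 ≤ y ^ 2 := by
      rw [← sq_abs]; nlinarith [abs_nonneg y]
    have h2 : 2 * x * (1 - 4 * y ^ 2) ≤ 0 := by
      apply mul_nonpos_of_nonneg_of_nonpos <;> linarith
    have h3 : cl (y - x) ≤ cl (x + y) := cl_mono (by linarith)
    have h4 : cl (x - y) = -cl (y - x) := by rw [← cl_neg]; ring_nf
    linarith

lemma cl_upper {x y : ℝ} (hx : 0 ≤ x) : cl (x + y) + cl (x - y) ≤ 2 * x := by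
  have h4 : cl (x - y) = -cl (y - x) := by rw [← cl_neg]; ring_nf
  have := cl_lip (a := y - x) (b := x + y) (by linarith)
  linarith

variable {n : ℕ}

/-- uniform average over `{0,1}^n` -/
noncomputable def av (f : (Fin n → Bool) → ℝ) : ℝ := (∑ β, f β) / 2 ^ n

lemma av_add (f g : (Fin n → Bool) → ℝ) : av (fun β => f β + g β) = av f + av g := by
  simp [av, sum_add_distrib, add_div]

lemma av_mul_left (c : ℝ) (f : (Fin n → Bool) → ℝ) : av (fun β => c * f β) = c * av f := by
  simp [av, ← mul_sum, mul_div_assoc]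

lemma av_sub (f g : (Fin n → Bool) → ℝ) : av (fun β => f β - g β) = av f - av g := by
  simp [av, sum_sub_distrib, sub_div]

lemma av_const (c : ℝ) : av (fun _ : Fin n → Bool => c) = c := by
  simp [av]

lemma av_mono {f g : (Fin n → Bool) → ℝ} (h : ∀ β, f β ≤ g β) : av f ≤ av g := by
  unfold av
  gcongr with β _
  exact h β

lemma av_equiv (e : (Fin n → Bool) ≃ (Fin n → Bool)) (f : (Fin n → Bool) → ℝ) :
    av (fun β => f (e β)) = av f := by
  unfold av
  rw [Equiv.sum_comp e f]

/-- complementing all bits -/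
def compl : (Fin n → Bool) ≃ (Fin n → Bool) where
  toFun β i := !β i
  invFun β i := !β i
  left_inv β := by ext; simp
  right_inv β := by ext; simp

/-- flipping one bit -/
def flipAt (i : Fin n) : (Fin n → Bool) ≃ (Fin n → Bool) where
  toFun β := Function.update β i (!β i)
  invFun β := Function.update β i (!β i)
  left_inv β := by ext j; by_cases h : j = i <;> simp [h]
  right_inv β := by ext j; by_cases h : j = i <;> simp [h]

lemma av_split (i : Fin n) (f : (Fin n → Bool) → ℝ) :
    av f = av (fun β => (f (Function.update β i true) + f (Function.update β i false)) / 2) := by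
  have h1 := av_equiv (flipAt i) f
  have h2 : av (fun β => (f (Function.update β i true) + f (Function.update β i false)) / 2) =
      av (fun β => (1 / 2) * (f β + f (flipAt i β))) := by
    congr 1
    ext β
    cases hb : β i
    · have e1 : Function.update β i false = β := by rw [← hb]; simp
      have e2 : flipAt i β = Function.update β i true := by simp [flipAt, hb]
      rw [e1, e2]; ring
    · have e1 : Function.update β i true = β := by rw [← hb]; simp
      have e2 : flipAt i β = Function.update β i false := by simp [flipAt, hb]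
      rw [e1, e2]; ring
  rw [h2, av_mul_left, av_add, h1]; ring

/-- sign of a bit -/
noncomputable def sg (b : Bool) : ℝ := if b then 1 else -1

lemma sg_not (b : Bool) : sg (!b) = -sg b := by cases b <;> simp [sg]

lemma sg_sq (b : Bool) : sg b * sg b = 1 := by cases b <;> simp [sg]

lemma av_sg_mul_sg {k l : Fin n} (h : k ≠ l) : av (fun β : Fin n → Bool => sg (β k) * sg (β l)) = 0 := by
  have h1 := av_equiv (flipAt k) (fun β : Fin n → Bool => sg (β k) * sg (β l))
  have h2 : (fun β : Fin n → Bool => sg (flipAt k β k) * sg (flipAt k β l)) =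
      fun β => (-1) * (sg (β k) * sg (β l)) := by
    ext β
    simp only [flipAt, Equiv.coe_fn_mk, Function.update_self, Function.update_of_ne h.symm, sg_not]
    ring
  rw [h2, av_mul_left] at h1
  linarith

/-- partial signed sum -/
noncomputable def ys (K : Finset (Fin n)) (s : Fin n → ℝ) (β : Fin n → Bool) : ℝ :=
  ∑ k ∈ K, sg (β k) * s k

lemma av_sum {ι : Type*} (T : Finset ι) (f : ι → (Fin n → Bool) → ℝ) :
    av (fun β => ∑ k ∈ T, f k β) = ∑ k ∈ T, av (f k) := by
  unfold av
  rw [sum_comm, sum_div]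

lemma av_ys_sq (K : Finset (Fin n)) (s : Fin n → ℝ) :
    av (fun β => ys K s β ^ 2) = ∑ k ∈ K, s k ^ 2 := by
  have h1 : (fun β : Fin n → Bool => ys K s β ^ 2) =
      fun β => ∑ k ∈ K, ∑ l ∈ K, (s k * s l) * (sg (β k) * sg (β l)) := by
    ext β
    rw [ys, sq, sum_mul_sum]
    refine sum_congr rfl fun k _ => sum_congr rfl fun l _ => by ring
  rw [h1, av_sum]
  refine sum_congr rfl fun k hk => ?_
  rw [av_sum, sum_eq_single k]
  · rw [av_mul_left]
    have : (fun β : Fin n → Bool => sg (β k) * sg (β k)) = fun _ => 1 := by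
      ext β; exact sg_sq _
    rw [this, av_const]; ring
  · intro l _ hl
    rw [av_mul_left, av_sg_mul_sg hl.symm, mul_zero]
  · intro h; exact absurd hk h

lemma ys_compl (K : Finset (Fin n)) (s : Fin n → ℝ) (β : Fin n → Bool) :
    ys K s (compl β) = -ys K s β := by
  simp [ys, compl, sg_not]

/-- average of the clipped signed sum shifted by `x` -/
noncomputable def CC (K : Finset (Fin n)) (s : Fin n → ℝ) (x : ℝ) : ℝ :=
  av (fun β => cl (x + 4 * ys K s β))

lemma CC_eq (K : Finset (Fin n)) (s : Fin n → ℝ) (x : ℝ) :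
    CC K s x = av (fun β => (1 / 2) * (cl (x + 4 * ys K s β) + cl (x - 4 * ys K s β))) := by
  rw [av_mul_left, av_add]
  have h := av_equiv compl (fun β : Fin n → Bool => cl (x + 4 * ys K s β))
  simp only [ys_compl] at h
  have h2 : (fun β : Fin n → Bool => cl (x - 4 * ys K s β)) =
      fun β => cl (x + 4 * -ys K s β) := by
    ext β; ring_nf
  rw [h2, h]
  unfold CC
  ring

lemma CC_neg (K : Finset (Fin n)) (s : Fin n → ℝ) (x : ℝ) : CC K s (-x) = -CC K s x := by
  have h : (fun β : Fin n → Bool => (1 / 2) * (cl (-x + 4 * ys K s β) + cl (-x - 4 * ys K s β))) =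
      fun β => (-1) * ((1 / 2) * (cl (x + 4 * ys K s β) + cl (x - 4 * ys K s β))) := by
    ext β
    have e1 : cl (-x + 4 * ys K s β) = -cl (x - 4 * ys K s β) := by rw [← cl_neg]; ring_nf
    have e2 : cl (-x - 4 * ys K s β) = -cl (x + 4 * ys K s β) := by rw [← cl_neg]; ring_nf
    rw [e1, e2]; ring
  rw [CC_eq, CC_eq, h, av_mul_left]
  ring

lemma CC_bounds (K : Finset (Fin n)) (s : Fin n → ℝ) (hs : ∑ k ∈ K, s k ^ 2 ≤ 1 / 256)
    {x : ℝ} (hx : 0 ≤ x) (hx2 : x ≤ 1 / 2) : 3 / 4 * x ≤ CC K s x ∧ CC K s x ≤ x := by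
  rw [CC_eq]
  constructor
  · calc 3 / 4 * x ≤ av (fun β => (x + (-64 * x) * ys K s β ^ 2)) := by
          rw [av_add, av_const, av_mul_left, av_ys_sq]
          nlinarith
      _ ≤ _ := by
          refine av_mono fun β => ?_
          have := cl_lower (y := 4 * ys K s β) hx hx2
          nlinarith
  · calc _ ≤ av (fun _ : Fin n → Bool => x) := by
          refine av_mono fun β => ?_
          have := cl_upper (y := 4 * ys K s β) hx
          linarith
      _ = x := av_const x

/-- signed form of the bounds -/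
lemma CC_signed (K : Finset (Fin n)) (s : Fin n → ℝ) (hs : ∑ k ∈ K, s k ^ 2 ≤ 1 / 256)
    {x : ℝ} (hx : |x| ≤ 1 / 2) : 3 / 4 * x ^ 2 ≤ x * CC K s x ∧ |CC K s x| ≤ |x| := by
  rcases le_total 0 x with h | h
  · rw [abs_of_nonneg h] at hx ⊢
    obtain ⟨h1, h2⟩ := CC_bounds K s hs h hx
    refine ⟨by nlinarith, ?_⟩
    rw [abs_of_nonneg (by nlinarith)]; exact h2
  · rw [abs_of_nonpos h] at hx ⊢
    obtain ⟨h1, h2⟩ := CC_bounds K s hs (x := -x) (by linarith) hx
    rw [CC_neg] at h1 h2
    refine ⟨by nlinarith, ?_⟩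
    rw [abs_of_nonpos (by nlinarith)]; linarith

end Pool.Agent.Lib.MP_3166d6_co
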