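import Mathlib

/-! Basic facts on the vertex set `Fin n → Bool` of the hypercube. -/

open Finset

namespace Pool.Agent.Lib.MP_3166d6_co

/-- vertices of the `n`-dimensional hypercube -/
abbrev Q (n : ℕ) := Fin n → Bool

/-- flip coordinate `i` of `v` -/
def fl {n : ℕ} (v : Q n) (i : Fin n) : Q n := Function.update v i (!v i)

variable {n : ℕ}

lemma fl_same (v : Q n) (i : Fin n) : fl v i i = !v i := by simp [fl]

lemma fl_ne (v : Q n) {i j : Fin n} (h : j ≠ i) : fl v i j = v j := by simp [fl, h]

lemma fl_fl (v : Q n) (i : Fin n) : fl (fl v i) i = v := by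
  ext j
  by_cases h : j = i
  · subst h; simp [fl_same]
  · simp [fl_ne _ h]

lemma fl_comm (v : Q n) (i j : Fin n) : fl (fl v i) j = fl (fl v j) i := by
  by_cases hij : i = j
  · subst hij; rfl
  ext k
  by_cases hi : k = i
  · subst hi; rw [fl_ne _ hij, fl_same, fl_same, fl_ne _ hij]
  · by_cases hj : k = j
    · subst hj; rw [fl_same, fl_ne _ hi, fl_ne _ hi, fl_same]
    · rw [fl_ne _ hj, fl_ne _ hi, fl_ne _ hi, fl_ne _ hj]

lemma fl_injective (v : Q n) : Function.Injective (fl v) := by
  intro i j h
  by_contra hij
  have := congrFun h i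
  rw [fl_same, fl_ne _ hij] at this
  cases hv : v i <;> simp [hv] at this

lemma diff_fl (v : Q n) (i : Fin n) : (univ.filter fun j => v j ≠ fl v i j) = {i} := by
  ext j
  simp only [mem_filter, mem_univ, true_and, mem_singleton]
  constructor
  · intro h
    by_contra hji
    exact h (fl_ne _ hji).symm
  · rintro rfl
    rw [fl_same]; cases v j <;> simp

lemma hammingDist_fl (v : Q n) (i : Fin n) : hammingDist v (fl v i) = 1 := by
  unfold hammingDist
  rw [diff_fl]; simp

lemma eq_fl_of_diff (v w : Q n) (i : Fin n) (h : (univ.filter fun j => v j ≠ w j) = {i}) :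
    w = fl v i := by
  ext j
  by_cases hj : j = i
  · subst hj
    have : j ∈ (univ.filter fun j => v j ≠ w j) := by rw [h]; simp
    simp only [mem_filter, mem_univ, true_and] at this
    rw [fl_same]
    cases hv : v j <;> cases hw : w j <;> simp_all
  · have : j ∉ (univ.filter fun j => v j ≠ w j) := by rw [h]; simpa using hj
    simp only [mem_filter, mem_univ, true_and, not_not] at this
    rw [fl_ne _ hj, this]

lemma hammingDist_eq_one {v w : Q n} : hammingDist v w = 1 ↔ ∃ i, w = fl v i := by
  constructor
  · intro h
    unfold hammingDist at h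
    obtain ⟨i, hi⟩ := card_eq_one.mp h
    exact ⟨i, eq_fl_of_diff v w i hi⟩
  · rintro ⟨i, rfl⟩
    exact hammingDist_fl v i

/-- the neighbourhood of `v` in the hypercube -/
def nb (v : Q n) : Finset (Q n) := univ.filter fun w => hammingDist v w = 1

lemma mem_nb {v w : Q n} : w ∈ nb v ↔ hammingDist v w = 1 := by simp [nb]

lemma mem_nb_comm {v w : Q n} : w ∈ nb v ↔ v ∈ nb w := by
  rw [mem_nb, mem_nb, hammingDist_comm]

lemma nb_eq_image (v : Q n) : nb v = univ.image (fl v) := by
  ext w
  rw [mem_nb, hammingDist_eq_one]
  simp only [mem_image, mem_univ, true_and]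
  constructor
  · rintro ⟨i, rfl⟩; exact ⟨i, rfl⟩
  · rintro ⟨i, rfl⟩; exact ⟨i, rfl⟩

lemma fl_mem_nb (v : Q n) (i : Fin n) : fl v i ∈ nb v := by
  rw [mem_nb]; exact hammingDist_fl v i

lemma card_nb (v : Q n) : (nb v).card = n := by
  rw [nb_eq_image, card_image_of_injective _ (fl_injective v)]
  simp

lemma card_inter_nb {u w : Q n} (h : u ≠ w) : (nb u ∩ nb w).card ≤ 2 := by
  by_cases he : (nb u ∩ nb w) = ∅
  · simp [he]
  obtain ⟨x, hx⟩ := nonempty_iff_ne_empty.mpr he
  rw [mem_inter, mem_nb, mem_nb] at hx
  have hd : hammingDist u w ≤ 2 := by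
    calc hammingDist u w ≤ hammingDist u x + hammingDist x w := hammingDist_triangle _ _ _
      _ = 2 := by rw [hammingDist_comm x w, hx.1, hx.2]
  refine le_trans (card_le_card (t := (univ.filter fun j => u j ≠ w j).image (fl u)) ?_)
    (le_trans card_image_le hd)
  intro y hy
  rw [mem_inter, mem_nb, mem_nb, hammingDist_eq_one, hammingDist_eq_one] at hy
  obtain ⟨⟨i, hi⟩, ⟨j, hj⟩⟩ := hy
  rw [mem_image]
  refine ⟨i, ?_, hi.symm⟩
  simp only [mem_filter, mem_univ, true_and]
  intro huw
  have hij : i = j := by
    by_contra hij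
    have h1 := congrFun hi i
    have h2 := congrFun hj i
    rw [fl_same] at h1
    rw [fl_ne _ hij] at h2
    rw [h1, ← huw] at h2
    cases hu : u i <;> simp [hu] at h2
  subst hij
  apply h
  rw [← fl_fl u i, ← fl_fl w i, ← hi, ← hj]

lemma inter_nb_eq_empty {u w : Q n} (h : 3 ≤ hammingDist u w) : nb u ∩ nb w = ∅ := by
  rw [← not_nonempty_iff_eq_empty]
  rintro ⟨x, hx⟩
  rw [mem_inter, mem_nb, mem_nb] at hx
  have : hammingDist u w ≤ 2 := by
    calc hammingDist u w ≤ hammingDist u x + hammingDist x w := hammingDist_triangle _ _ _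
      _ = 2 := by rw [hammingDist_comm x w, hx.1, hx.2]
  omega

lemma dist_of_mem_nb {v u w : Q n} (hu : u ∈ nb v) (hw : w ∈ nb v) (h : u ≠ w) :
    hammingDist u w = 2 := by
  rw [mem_nb, hammingDist_eq_one] at hu hw
  obtain ⟨i, rfl⟩ := hu
  obtain ⟨j, rfl⟩ := hw
  have hij : i ≠ j := fun e => h (by rw [e])
  unfold hammingDist
  have : (univ.filter fun k => fl v i k ≠ fl v j k) = {i, j} := by
    ext k
    simp only [mem_filter, mem_univ, true_and, mem_insert, mem_singleton]
    by_cases h1 : k = i
    · subst h1; rw [fl_same, fl_ne _ hij]; simp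
    · by_cases h2 : k = j
      · subst h2; rw [fl_same, fl_ne _ h1]; simp
      · rw [fl_ne _ h1, fl_ne _ h2]; simp [h1, h2]
  rw [this, card_pair hij]

/-- closed Hamming balls have at most `(n+1)^k` points -/
lemma card_ball (v : Q n) (k : ℕ) :
    (univ.filter fun w => hammingDist v w ≤ k).card ≤ (n + 1) ^ k := by
  induction k with
  | zero =>
    have : (univ.filter fun w => hammingDist v w ≤ 0) ⊆ {v} := by
      intro w hw
      simp only [mem_filter, mem_univ, true_and, Nat.le_zero, hammingDist_eq_zero] at hw
      simp [hw]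
    simpa using card_le_card this
  | succ k ih =>
    have hsub : (univ.filter fun w => hammingDist v w ≤ k + 1) ⊆
        (univ.filter fun w => hammingDist v w ≤ k) ∪
        ((univ.filter fun w => hammingDist v w ≤ k) ×ˢ (univ : Finset (Fin n))).image
          (fun p => fl p.1 p.2) := by
      intro w hw
      simp only [mem_filter, mem_univ, true_and] at hw
      rw [mem_union]
      by_cases hk : hammingDist v w ≤ k
      · left; simpa using hk
      · right
        have hpos : 0 < (univ.filter fun j => v j ≠ w j).card := by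
          unfold hammingDist at hk; omega
        obtain ⟨i, hi⟩ := card_pos.mp hpos
        simp only [mem_filter, mem_univ, true_and] at hi
        rw [mem_image]
        refine ⟨(fl w i, i), ?_, fl_fl w i⟩
        simp only [mem_product, mem_filter, mem_univ, true_and, and_true]
        have hss : (univ.filter fun j => v j ≠ fl w i j) ⊂ (univ.filter fun j => v j ≠ w j) := by
          rw [ssubset_iff_of_subset]
          · refine ⟨i, by simpa using hi, ?_⟩
            simp only [mem_filter, mem_univ, true_and, not_not]
            rw [fl_same]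
            cases hv : v i <;> cases hw : w i <;> simp_all
          · intro j hj
            simp only [mem_filter, mem_univ, true_and] at hj ⊢
            by_cases hji : j = i
            · subst hji; exact hi
            · rwa [fl_ne _ hji] at hj
        have := card_lt_card hss
        unfold hammingDist at hw ⊢
        omega
    calc (univ.filter fun w => hammingDist v w ≤ k + 1).card
        ≤ _ := card_le_card hsub
      _ ≤ _ := card_union_le _ _
      _ ≤ (n + 1) ^ k + (n + 1) ^ k * n := by
          refine add_le_add ih (le_trans card_image_le ?_)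
          rw [card_product]
          simpa using Nat.mul_le_mul_right n ih
      _ = (n + 1) ^ (k + 1) := by ring

end Pool.Agent.Lib.MP_3166d6_co
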