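import Mathlib

/-! A Beck-Fiala type rounding theorem. -/

open Finset

namespace Pool.Agent.Lib.MP_3166d6_co

variable {V J : Type*} [DecidableEq V] [Fintype J]

/-- a nonzero direction supported on `A` and orthogonal to few sets -/
lemma exists_direction (A : Finset V) (P : Finset J) (F : J → Finset V) (h : P.card < A.card) :
    ∃ z : V → ℝ, (∃ v ∈ A, z v ≠ 0) ∧ (∀ v, v ∉ A → z v = 0) ∧
      ∀ j ∈ P, ∑ x ∈ F j ∩ A, z x = 0 := by
  classical
  let L : (A → ℝ) →ₗ[ℝ] (P → ℝ) :=
    LinearMap.pi fun j => ∑ x : A, if (x : V) ∈ F j then LinearMap.proj x else 0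
  have hlt : Module.finrank ℝ (P → ℝ) < Module.finrank ℝ (A → ℝ) := by
    simpa using h
  have hker := LinearMap.ker_ne_bot_of_finrank_lt (f := L) hlt
  obtain ⟨z, hz, hz0⟩ := Submodule.exists_mem_ne_zero_of_ne_bot hker
  obtain ⟨v, hv⟩ := Function.ne_iff.mp hz0
  refine ⟨fun x => if hx : x ∈ A then z ⟨x, hx⟩ else 0, ⟨v, v.2, ?_⟩, ?_, ?_⟩
  · simpa using hv
  · intro v hv; simp [hv]
  · intro j hj
    have h1 := congrFun (LinearMap.mem_ker.mp hz) ⟨j, hj⟩
    simp only [L, LinearMap.pi_apply, LinearMap.coe_sum, Finset.sum_apply, Pi.zero_apply] at h1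
    rw [← h1]
    have h2 : F j ∩ A = A.filter fun x => x ∈ F j := by
      ext x; simp [and_comm]
    rw [h2, Finset.sum_filter, ← Finset.sum_coe_sort A]
    refine Finset.sum_congr rfl ?_
    intro x _
    by_cases hx : (x : V) ∈ F j <;> simp [hx]

/-- moving along a direction inside the cube until a coordinate becomes integral -/
lemma exists_move (A : Finset V) (x z : V → ℝ) (hx : ∀ v ∈ A, |x v| ≤ 1)
    (hz : ∃ v ∈ A, z v ≠ 0) :
    ∃ l : ℝ, (∀ v ∈ A, |x v + l * z v| ≤ 1) ∧ ∃ v ∈ A, x v + l * z v = 1 ∨ x v + l * z v = -1 := by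
  classical
  let B := A.filter fun v => z v ≠ 0
  have hB : B.Nonempty := by
    obtain ⟨v, hv, hv0⟩ := hz
    exact ⟨v, by simp [B, hv, hv0]⟩
  let f : V → ℝ := fun v => (|z v| - x v * z v) / (z v) ^ 2
  obtain ⟨w, hw, hmin⟩ := B.exists_min_image f hB
  have hwA : w ∈ A := (mem_filter.mp hw).1
  have hw0 : z w ≠ 0 := (mem_filter.mp hw).2
  have hf0 : ∀ v ∈ A, 0 ≤ |z v| - x v * z v := by
    intro v hv
    have h1 : x v * z v ≤ |x v| * |z v| := by
      rw [← abs_mul]; exact le_abs_self _
    nlinarith [hx v hv, abs_nonneg (z v)]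
  refine ⟨f w, ?_, w, hwA, ?_⟩
  · intro v hv
    have hfw : 0 ≤ f w := div_nonneg (hf0 w hwA) (sq_nonneg _)
    rcases lt_trichotomy (z v) 0 with hneg | h0 | hpos
    · have hvB : v ∈ B := by simp [B, hv, hneg.ne]
      have h1 := hmin v hvB
      have h2 : f v * z v = -1 - x v := by
        simp only [f]
        rw [abs_of_neg hneg]
        have := hneg.ne
        field_simp
      have h3 : f v * z v ≤ f w * z v := by nlinarith
      have h4 : f w * z v ≤ 0 := by nlinarith
      rw [abs_le]; constructor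
      · linarith
      · have := (abs_le.mp (hx v hv)).2; linarith
    · rw [h0]; simpa using hx v hv
    · have hvB : v ∈ B := by simp [B, hv, hpos.ne']
      have h1 := hmin v hvB
      have h2 : f v * z v = 1 - x v := by
        simp only [f]
        rw [abs_of_pos hpos]
        field_simp
      have h3 : f w * z v ≤ f v * z v := by nlinarith
      have h4 : 0 ≤ f w * z v := by positivity
      rw [abs_le]; constructor
      · have := (abs_le.mp (hx v hv)).1; linarith
      · linarith
  · rcases lt_or_gt_of_ne hw0 with hneg | hpos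
    · right
      simp only [f]
      rw [abs_of_neg hneg]
      field_simp
      ring
    · left
      simp only [f]
      rw [abs_of_pos hpos]
      field_simp
      ring

lemma round_aux (F : J → Finset V) (U : Finset V) (t : ℕ)
    (h : ∀ A ⊆ U, A.Nonempty → (univ.filter fun j => t < (F j ∩ A).card).card < A.card) :
    ∀ k : ℕ, ∀ A ⊆ U, A.card = k → ∀ x : V → ℝ, (∀ v ∈ A, |x v| ≤ 1) →
      ∃ χ : V → ℝ, (∀ v ∈ A, χ v = 1 ∨ χ v = -1) ∧ (∀ v, v ∉ A → χ v = x v) ∧
        ∀ j, |∑ v ∈ F j ∩ A, (χ v - x v)| ≤ 2 * t := by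
  intro k
  induction k with
  | zero =>
    intro A _ hA x _
    have : A = ∅ := card_eq_zero.mp hA
    subst this
    exact ⟨x, by simp, by simp, by simp⟩
  | succ k ih =>
    intro A hAU hA x hx
    have hne : A.Nonempty := card_pos.mp (by omega)
    obtain ⟨z, hz, hzA, hz0⟩ := exists_direction A _ F (h A hAU hne)
    obtain ⟨l, hl, v, hv, hv1⟩ := exists_move A x z hx hz
    obtain ⟨χ, h1, h2, h3⟩ := ih (A.erase v) ((erase_subset _ _).trans hAU)
      (by rw [card_erase_of_mem hv]; omega) (fun w => x w + l * z w)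
      (fun w hw => hl w (mem_of_mem_erase hw))
    have hχv : χ v = x v + l * z v := h2 v (by simp)
    have hχA : ∀ w ∈ A, χ w = 1 ∨ χ w = -1 := by
      intro w hw
      by_cases hwv : w = v
      · subst hwv; rw [hχv]; exact hv1
      · exact h1 w (mem_erase.mpr ⟨hwv, hw⟩)
    refine ⟨χ, hχA, ?_, ?_⟩
    · intro w hw
      rw [h2 w (fun hw' => hw (mem_of_mem_erase hw')), hzA w hw]; ring
    · intro j
      by_cases hj : t < (F j ∩ A).card
      · have hzj := hz0 j (by simp [hj])
        have e1 : ∑ w ∈ F j ∩ A, (χ w - x w) = ∑ w ∈ F j ∩ A, (χ w - (x w + l * z w)) := by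
          have : ∑ w ∈ F j ∩ A, (χ w - x w) =
              ∑ w ∈ F j ∩ A, (χ w - (x w + l * z w)) + l * ∑ w ∈ F j ∩ A, z w := by
            rw [mul_sum, ← sum_add_distrib]
            exact sum_congr rfl fun w _ => by ring
          rw [this, hzj]; ring
        have e2 : ∑ w ∈ F j ∩ A, (χ w - (x w + l * z w)) =
            ∑ w ∈ F j ∩ A.erase v, (χ w - (x w + l * z w)) := by
          symm
          apply sum_subset
          · exact inter_subset_inter_left (erase_subset _ _)
          · intro w hw hw'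
            have : w = v := by
              by_contra hwv
              exact hw' (by
                rw [mem_inter] at hw ⊢
                exact ⟨hw.1, mem_erase.mpr ⟨hwv, hw.2⟩⟩)
            subst this
            rw [hχv]; ring
        rw [e1, e2]
        exact h3 j
      · calc |∑ w ∈ F j ∩ A, (χ w - x w)| ≤ ∑ w ∈ F j ∩ A, |χ w - x w| := abs_sum_le_sum_abs _ _
          _ ≤ ∑ w ∈ F j ∩ A, 2 := by
              refine sum_le_sum fun w hw => ?_
              have hwA := (mem_inter.mp hw).2
              have hb := abs_le.mp (hx w hwA)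
              rcases hχA w hwA with h' | h' <;> rw [h', abs_le] <;> constructor <;> linarith
          _ ≤ 2 * t := by
              rw [sum_const, nsmul_eq_mul, mul_comm]
              have : ((F j ∩ A).card : ℝ) ≤ t := by exact_mod_cast not_lt.mp hj
              linarith

/-- **Beck-Fiala rounding.** If for every nonempty `A ⊆ U` fewer than `|A|` of the sets `F j`
meet `A` in more than `t` points, then `U` has a two-colouring with all `|χ(F j ∩ U)| ≤ 2t`. -/
theorem beck_fiala (F : J → Finset V) (U : Finset V) (t : ℕ)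
    (h : ∀ A ⊆ U, A.Nonempty → (univ.filter fun j => t < (F j ∩ A).card).card < A.card) :
    ∃ χ : V → ℤ, (∀ v, χ v = 1 ∨ χ v = -1) ∧ ∀ j, |∑ v ∈ F j ∩ U, χ v| ≤ 2 * t := by
  classical
  obtain ⟨χ, h1, _, h3⟩ := round_aux F U t h U.card U (Subset.refl _) rfl (fun _ => 0) (by simp)
  refine ⟨fun v => if χ v = 1 then 1 else -1, fun v => ?_, fun j => ?_⟩
  · by_cases hv : χ v = 1 <;> simp [hv]
  · have h4 := h3 j
    have e : ((∑ v ∈ F j ∩ U, (if χ v = 1 then (1 : ℤ) else -1) : ℤ) : ℝ) =
        ∑ v ∈ F j ∩ U, (χ v - 0) := by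
      push_cast
      refine sum_congr rfl fun v hv => ?_
      rcases h1 v (mem_inter.mp hv).2 with h' | h'
      · simp [h']
      · rw [h']; norm_num
    rw [← e] at h4
    exact_mod_cast h4

end Pool.Agent.Lib.MP_3166d6_co
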