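import Pool.Agent.Lib.MP_3166d6_co.Basics

/-! Edge isoperimetric inequality of the hypercube. -/

open Finset

namespace Pool.Agent.Lib.MP_3166d6_co

/-- number of ordered pairs (vertex of `W`, direction) staying in `W` -/
def ecount {n : ℕ} (W : Finset (Q n)) : ℕ :=
  ∑ w : Q n, ∑ i : Fin n, if w ∈ W ∧ fl w i ∈ W then 1 else 0

/-- half of `W` -/
def half {n : ℕ} (W : Finset (Q (n + 1))) (b : Bool) : Finset (Q n) :=
  univ.filter fun x => (Fin.cons b x : Q (n + 1)) ∈ W

lemma mem_half {n : ℕ} (W : Finset (Q (n + 1))) (b : Bool) (x : Q n) :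
    x ∈ half W b ↔ (Fin.cons b x : Q (n + 1)) ∈ W := by simp [half]

lemma sum_cons {n : ℕ} {M : Type*} [AddCommMonoid M] (f : Q (n + 1) → M) :
    ∑ w, f w = ∑ b : Bool, ∑ x : Q n, f (Fin.cons b x) := by
  rw [← Fintype.sum_prod_type']
  exact (Fintype.sum_equiv (Fin.consEquiv (fun _ => Bool)) _ _ (fun _ => rfl)).symm

lemma card_half {n : ℕ} (W : Finset (Q (n + 1))) :
    W.card = (half W false).card + (half W true).card := by
  have h : W.card = ∑ w : Q (n + 1), if w ∈ W then 1 else 0 := by simp
  rw [h, sum_cons, Fintype.sum_bool]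
  have e : ∀ b, (half W b).card = ∑ x : Q n, if (Fin.cons b x : Q (n + 1)) ∈ W then 1 else 0 := by
    intro b; rw [half, card_filter]
  rw [e, e, add_comm]

lemma fl_cons_zero {n : ℕ} (b : Bool) (x : Q n) :
    fl (Fin.cons b x : Q (n + 1)) 0 = Fin.cons (!b) x := by
  unfold fl
  simp

lemma fl_cons_succ {n : ℕ} (b : Bool) (x : Q n) (j : Fin n) :
    fl (Fin.cons b x : Q (n + 1)) j.succ = Fin.cons b (fl x j) := by
  unfold fl
  simp [Fin.cons_update]

lemma ecount_succ {n : ℕ} (W : Finset (Q (n + 1))) :
    ecount W ≤ ecount (half W false) + ecount (half W true) +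
      2 * min (half W false).card (half W true).card := by
  have hcross : ∀ b : Bool, (∑ x : Q n, if (Fin.cons b x : Q (n + 1)) ∈ W ∧
      (Fin.cons (!b) x : Q (n + 1)) ∈ W then 1 else 0) ≤
      min (half W false).card (half W true).card := by
    intro b
    have h1 : ∀ c : Bool, (∑ x : Q n, if (Fin.cons b x : Q (n + 1)) ∈ W ∧
      (Fin.cons (!b) x : Q (n + 1)) ∈ W then 1 else 0) ≤ (half W c).card := by
      intro c
      rw [← card_filter]
      apply card_le_card
      intro x hx
      simp only [mem_filter, mem_univ, true_and] at hx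
      rw [mem_half]
      cases b <;> cases c <;> simp_all
    exact le_min (h1 _) (h1 _)
  unfold ecount
  rw [sum_cons]
  simp only [Fin.sum_univ_succ, fl_cons_zero, fl_cons_succ, sum_add_distrib, Fintype.sum_bool,
    ← mem_half]
  have h1 := hcross false
  have h2 := hcross true
  simp only [← mem_half, Bool.not_false, Bool.not_true] at h1 h2 ⊢
  omega

lemma log_ineq {a b : ℝ} (ha : 0 < a) (hab : a ≤ b) :
    a * Real.logb 2 a + b * Real.logb 2 b + 2 * a ≤ (a + b) * Real.logb 2 (a + b) := by
  have hb : 0 < b := lt_of_lt_of_le ha hab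
  have h2 : (0 : ℝ) < Real.log 2 := Real.log_pos (by norm_num)
  -- log2 (a+b) - log2 a ≥ 1
  have e1 : Real.logb 2 (2 * a) ≤ Real.logb 2 (a + b) :=
    Real.logb_le_logb_of_le (by norm_num) (by positivity) (by linarith)
  have e2 : Real.logb 2 (2 * a) = 1 + Real.logb 2 a := by
    rw [Real.logb_mul (by norm_num) ha.ne', Real.logb_self_eq_one (by norm_num)]
  -- b (log2 (a+b) - log2 b) ≥ a
  have e3 : a / b ≤ Real.logb 2 (1 + a / b) := by
    have ht0 : 0 ≤ a / b := by positivity
    have ht1 : a / b ≤ 1 := by rw [div_le_one hb]; exact hab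
    have hc := strictConcaveOn_log_Ioi.concaveOn.2 (show (1 : ℝ) ∈ Set.Ioi 0 by simp)
      (show (2 : ℝ) ∈ Set.Ioi 0 by simp) (show 0 ≤ 1 - a / b by linarith) ht0 (by ring)
    simp only [smul_eq_mul, Real.log_one, mul_zero, zero_add] at hc
    have : (1 - a / b) * 1 + a / b * 2 = 1 + a / b := by ring
    rw [this] at hc
    unfold Real.logb
    rw [le_div_iff₀ h2]
    exact hc
  have e4 : Real.logb 2 (a + b) = Real.logb 2 b + Real.logb 2 (1 + a / b) := by
    rw [← Real.logb_mul hb.ne' (by positivity)]
    congr 1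
    field_simp
    ring
  have e5 : a ≤ b * Real.logb 2 (1 + a / b) := by
    calc a = b * (a / b) := by field_simp
      _ ≤ _ := mul_le_mul_of_nonneg_left e3 hb.le
  have e6 : b * Real.logb 2 (a + b) ≥ b * Real.logb 2 b + a := by
    rw [e4]; nlinarith
  nlinarith

/-- **Edge isoperimetric inequality**: `W` has at most `|W| log₂ |W|` inner (vertex, direction)
pairs. -/
theorem ecount_le {n : ℕ} (W : Finset (Q n)) : (ecount W : ℝ) ≤ W.card * Real.logb 2 W.card := by
  induction n with
  | zero =>
    have : ecount W = 0 := by simp [ecount]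
    rw [this]
    have hc : W.card ≤ 1 := le_trans (card_le_univ W) (by simp)
    interval_cases h : W.card <;> simp
  | succ n ih =>
    have h1 := ecount_succ W
    have h2 := card_half W
    have h3 : (ecount W : ℝ) ≤ ecount (half W false) + ecount (half W true) +
      2 * min ((half W false).card : ℝ) ((half W true).card : ℝ) := by exact_mod_cast h1
    have i0 := ih (half W false)
    have i1 := ih (half W true)
    rw [h2]
    push_cast
    set a := ((half W false).card : ℝ) with ha
    set b := ((half W true).card : ℝ) with hb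
    have ha0 : 0 ≤ a := by positivity
    have hb0 : 0 ≤ b := by positivity
    rcases ha0.eq_or_lt with ha' | ha'
    · rw [← ha'] at i0 h3 ⊢
      simp only [zero_mul, zero_add] at i0 ⊢
      rw [min_eq_left hb0] at h3
      linarith
    rcases hb0.eq_or_lt with hb' | hb'
    · rw [← hb'] at i1 h3 ⊢
      simp only [zero_mul, add_zero] at i1 ⊢
      rw [min_eq_right ha0] at h3
      linarith
    rcases le_total a b with hab | hab
    · rw [min_eq_left hab] at h3
      have := log_ineq ha' hab
      linarith
    · rw [min_eq_right hab] at h3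
      have := log_ineq hb' hab
      rw [add_comm b a] at this
      linarith

end Pool.Agent.Lib.MP_3166d6_co
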