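import Pool.Agent.Lib.MP_3166d6_co.Basics
import Pool.Agent.Lib.MP_3166d6_co.BeckFiala
import Pool.Agent.Lib.MP_3166d6_co.Iso

/-! Far chains of vertices, and colourings of sets containing no long far chain. -/

open Finset

namespace Pool.Agent.Lib.MP_3166d6_co

variable {n : ℕ}

/-- far chains with `k+1` vertices: each new vertex is at distance at least `5` from all earlier
ones and at distance at most `6` from one of them -/
def chainS (n : ℕ) : ℕ → Finset (List (Q n))
  | 0 => univ.image fun v => [v]
  | k + 1 => (chainS n k).biUnion fun l => l.toFinset.biUnion fun w =>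
      (univ.filter fun x => hammingDist w x ≤ 6 ∧ ∀ y ∈ l, 5 ≤ hammingDist y x).image
        fun x => x :: l

lemma mem_chainS_succ {k : ℕ} {m : List (Q n)} :
    m ∈ chainS n (k + 1) ↔ ∃ l ∈ chainS n k, ∃ w ∈ l, ∃ x, hammingDist w x ≤ 6 ∧
      (∀ y ∈ l, 5 ≤ hammingDist y x) ∧ m = x :: l := by
  simp only [chainS, mem_biUnion, List.mem_toFinset, mem_image, mem_filter, mem_univ, true_and]
  constructor
  · rintro ⟨l, hl, w, hw, x, ⟨h1, h2⟩, rfl⟩
    exact ⟨l, hl, w, hw, x, h1, h2, rfl⟩
  · rintro ⟨l, hl, w, hw, x, h1, h2, rfl⟩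
    exact ⟨l, hl, w, hw, x, ⟨h1, h2⟩, rfl⟩

lemma length_of_mem_chainS {k : ℕ} {l : List (Q n)} (h : l ∈ chainS n k) : l.length = k + 1 := by
  induction k generalizing l with
  | zero =>
    simp only [chainS, mem_image, mem_univ, true_and] at h
    obtain ⟨v, rfl⟩ := h; rfl
  | succ k ih =>
    obtain ⟨l', hl', w, hw, x, _, _, rfl⟩ := mem_chainS_succ.mp h
    simp [ih hl']

lemma pairwise_of_mem_chainS {k : ℕ} {l : List (Q n)} (h : l ∈ chainS n k) :
    l.Pairwise fun x y => 5 ≤ hammingDist x y := by
  induction k generalizing l with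
  | zero =>
    simp only [chainS, mem_image, mem_univ, true_and] at h
    obtain ⟨v, rfl⟩ := h; simp
  | succ k ih =>
    obtain ⟨l', hl', w, hw, x, _, hx, rfl⟩ := mem_chainS_succ.mp h
    rw [List.pairwise_cons]
    refine ⟨fun y hy => ?_, ih hl'⟩
    rw [hammingDist_comm]; exact hx y hy

lemma card_chainS (k : ℕ) : (chainS n k).card ≤ 2 ^ n * (k * (n + 1) ^ 6) ^ k := by
  have key : ∀ k, (chainS n k).card ≤ 2 ^ n * (k.factorial * ((n + 1) ^ 6) ^ k) := by
    intro k
    induction k with
    | zero =>
      refine le_trans card_image_le ?_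
      simp
    | succ k ih =>
      have h1 : (chainS n (k + 1)).card ≤ (chainS n k).card * ((k + 1) * (n + 1) ^ 6) := by
        refine card_biUnion_le_card_mul _ _ _ fun l hl => ?_
        refine le_trans (card_biUnion_le_card_mul _ _ ((n + 1) ^ 6) fun w _ => ?_) ?_
        · refine le_trans card_image_le (le_trans (card_le_card ?_) (card_ball w 6))
          intro x hx
          simp only [mem_filter, mem_univ, true_and] at hx ⊢
          exact hx.1
        · refine Nat.mul_le_mul_right _ ?_
          rw [← length_of_mem_chainS hl]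
          exact List.toFinset_card_le l
      calc (chainS n (k + 1)).card ≤ (chainS n k).card * ((k + 1) * (n + 1) ^ 6) := h1
        _ ≤ (2 ^ n * (k.factorial * ((n + 1) ^ 6) ^ k)) * ((k + 1) * (n + 1) ^ 6) :=
            Nat.mul_le_mul_right _ ih
        _ = 2 ^ n * ((k + 1).factorial * ((n + 1) ^ 6) ^ (k + 1)) := by
            rw [Nat.factorial_succ, pow_succ ((n + 1) ^ 6) k]; ring
  refine le_trans (key k) (Nat.mul_le_mul_left _ ?_)
  rw [mul_pow]
  exact Nat.mul_le_mul_right _ (Nat.factorial_le_pow k)

/-- a large `2`-connected set contains a long far chain -/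
lemma exists_chain (A : Finset (Q n)) (hA : A.Nonempty)
    (hconn : ∀ B ⊆ A, B.Nonempty → B ≠ A → ∃ a ∈ B, ∃ b ∈ A \ B, hammingDist a b = 2)
    (k : ℕ) (hcard : k * (n + 1) ^ 4 < A.card) : ∃ l ∈ chainS n k, ∀ x ∈ l, x ∈ A := by
  induction k with
  | zero =>
    obtain ⟨a, ha⟩ := hA
    exact ⟨[a], by simp [chainS], by simpa using ha⟩
  | succ k ih =>
    obtain ⟨l, hl, hlA⟩ := ih (lt_of_le_of_lt (Nat.mul_le_mul_right _ (Nat.le_succ k)) hcard)
    have hlen := length_of_mem_chainS hl
    let B := A.filter fun x => ∃ y ∈ l, hammingDist y x ≤ 4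
    have hBne : B.Nonempty := by
      cases l with
      | nil => simp at hlen
      | cons y l => exact ⟨y, by simp [B, hlA y]⟩
    have hBcard : B.card ≤ (k + 1) * (n + 1) ^ 4 := by
      have hsub : B ⊆ l.toFinset.biUnion fun y => univ.filter fun x => hammingDist y x ≤ 4 := by
        intro x hx
        obtain ⟨y, hy, hyx⟩ := (mem_filter.mp hx).2
        rw [mem_biUnion]
        exact ⟨y, by simpa using hy, by simpa using hyx⟩
      refine le_trans (card_le_card hsub)
        (le_trans (card_biUnion_le_card_mul _ _ ((n + 1) ^ 4) fun w _ => card_ball w 4) ?_)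
      refine Nat.mul_le_mul_right _ ?_
      rw [← hlen]
      exact List.toFinset_card_le l
    have hBA : B ≠ A := by
      intro h
      rw [h] at hBcard
      omega
    obtain ⟨a, ha, b, hb, hab⟩ := hconn B (filter_subset _ _) hBne hBA
    obtain ⟨y, hy, hya⟩ := (mem_filter.mp ha).2
    rw [mem_sdiff] at hb
    refine ⟨b :: l, mem_chainS_succ.mpr ⟨l, hl, y, hy, b, ?_, ?_, rfl⟩, ?_⟩
    · calc hammingDist y b ≤ hammingDist y a + hammingDist a b := hammingDist_triangle _ _ _
        _ ≤ 6 := by omega
    · intro z hz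
      by_contra hzb
      exact hb.2 (mem_filter.mpr ⟨hb.1, z, hz, by omega⟩)
    · intro x hx
      rcases List.mem_cons.mp hx with rfl | hx
      · exact hb.1
      · exact hlA x hx

/-- number of incidences between `P` and `A` -/
lemma sum_card_le_ecount (S : Q n → Finset (Q n)) (hS : ∀ v, S v ⊆ nb v) (P A : Finset (Q n)) :
    ∑ v ∈ P, (S v ∩ A).card ≤ ecount (A ∪ P) := by
  unfold ecount
  calc ∑ v ∈ P, (S v ∩ A).card ≤ ∑ v ∈ P, ∑ i : Fin n,
        (if v ∈ A ∪ P ∧ fl v i ∈ A ∪ P then 1 else 0) := by
        refine sum_le_sum fun v hv => ?_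
        have h1 : (S v ∩ A).card ≤ (univ.filter fun i => fl v i ∈ A).card := by
          rw [← card_image_of_injective _ (fl_injective v)]
          refine card_le_card fun x hx => ?_
          rw [mem_inter] at hx
          have hx1 := hS v hx.1
          rw [nb_eq_image, mem_image] at hx1
          obtain ⟨i, _, rfl⟩ := hx1
          exact mem_image_of_mem _ (by simpa using hx.2)
        refine le_trans h1 ?_
        rw [card_filter]
        refine sum_le_sum fun i _ => ?_
        by_cases hi : fl v i ∈ A
        · simp [hi, hv]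
        · simp [hi]
    _ ≤ _ := sum_le_sum_of_subset (subset_univ P)

/-- if `U` contains no long far chain then `U` has a colouring of discrepancy `≤ 4 s` -/
theorem leftover (S : Q n → Finset (Q n)) (hS : ∀ v, S v ⊆ nb v) (U : Finset (Q n)) (s : ℕ)
    (hs : 2 * (n + 1) ^ 5 ≤ 2 ^ s) (hU : ∀ l ∈ chainS n n, ∃ x ∈ l, x ∉ U) :
    ∃ χ : Q n → ℤ, (∀ v, χ v = 1 ∨ χ v = -1) ∧ ∀ v, |∑ x ∈ S v ∩ U, χ x| ≤ 4 * s := by
  classical
  have main : ∀ A ⊆ U, A.Nonempty →
      (univ.filter fun v => 2 * s < (S v ∩ A).card).card < A.card := by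
    by_contra hcon
    push Not at hcon
    obtain ⟨A0, hA0U, hA0ne, hA0⟩ := hcon
    let bad : Finset (Finset (Q n)) := univ.filter fun A =>
      A ⊆ U ∧ A.Nonempty ∧ A.card ≤ (univ.filter fun v => 2 * s < (S v ∩ A).card).card
    have hbadne : bad.Nonempty := ⟨A0, by simp [bad, hA0U, hA0ne, hA0]⟩
    obtain ⟨A, hA, hmin⟩ := exists_min_image bad card hbadne
    obtain ⟨hAU, hAne, hAc⟩ := (mem_filter.mp hA).2
    have hsmall : ∀ B ⊆ A, B.Nonempty → B ≠ A →
        (univ.filter fun v => 2 * s < (S v ∩ B).card).card < B.card := by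
      intro B hB hBne hBA
      by_contra hB2
      push Not at hB2
      have h1 := hmin B (by simp [bad, hB.trans hAU, hBne, hB2])
      have h2 := card_lt_card (hB.ssubset_of_ne hBA)
      omega
    have hconn : ∀ B ⊆ A, B.Nonempty → B ≠ A →
        ∃ a ∈ B, ∃ b ∈ A \ B, hammingDist a b = 2 := by
      intro B hB hBne hBA
      by_contra hno
      push Not at hno
      have hCne : (A \ B).Nonempty := by
        rw [sdiff_nonempty]
        intro h
        exact hBA (hB.antisymm h)
      have h1 := hsmall B hB hBne hBA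
      have h2 := hsmall (A \ B) sdiff_subset hCne (by
        intro h
        obtain ⟨b, hb⟩ := hBne
        have : b ∈ A \ B := by rw [h]; exact hB hb
        exact (mem_sdiff.mp this).2 hb)
      have hsub : (univ.filter fun v => 2 * s < (S v ∩ A).card) ⊆
          (univ.filter fun v => 2 * s < (S v ∩ B).card) ∪
          (univ.filter fun v => 2 * s < (S v ∩ (A \ B)).card) := by
        intro v hv
        simp only [mem_filter, mem_univ, true_and, mem_union] at hv ⊢
        by_cases hB1 : (S v ∩ B) = ∅
        · right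
          have : S v ∩ (A \ B) = S v ∩ A := by
            ext x
            simp only [mem_inter, mem_sdiff]
            constructor
            · rintro ⟨a, b, _⟩; exact ⟨a, b⟩
            · rintro ⟨a, b⟩
              refine ⟨a, b, fun hxB => ?_⟩
              have : x ∈ S v ∩ B := mem_inter.mpr ⟨a, hxB⟩
              rw [hB1] at this
              exact absurd this (notMem_empty _)
          rwa [this]
        · left
          obtain ⟨a, ha⟩ := nonempty_iff_ne_empty.mpr hB1
          rw [mem_inter] at ha
          have : S v ∩ B = S v ∩ A := by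
            ext x
            simp only [mem_inter]
            constructor
            · rintro ⟨h3, h4⟩; exact ⟨h3, hB h4⟩
            · rintro ⟨h3, h4⟩
              refine ⟨h3, ?_⟩
              by_contra hxB
              refine hno a ha.2 x (mem_sdiff.mpr ⟨h4, hxB⟩)
                (dist_of_mem_nb (hS v ha.1) (hS v h3) ?_)
              rintro rfl
              exact hxB ha.2
          rwa [this]
      have h3 := card_le_card hsub
      have h4 := card_union_le (univ.filter fun v => 2 * s < (S v ∩ B).card)
          (univ.filter fun v => 2 * s < (S v ∩ (A \ B)).card)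
      have h5 := card_sdiff_add_card_eq_card hB
      omega
    -- the size of `A`
    obtain ⟨P, hPsub, hPcard⟩ := exists_subset_card_eq hAc
    have h1 : A.card * (2 * s + 1) ≤ ecount (A ∪ P) := by
      refine le_trans ?_ (sum_card_le_ecount S hS P A)
      rw [← hPcard, ← smul_eq_mul]
      refine card_nsmul_le_sum _ _ _ fun v hv => ?_
      have := (mem_filter.mp (hPsub hv)).2
      omega
    have h2 := ecount_le (A ∪ P)
    have hWcard : (A ∪ P).card ≤ 2 * A.card := by
      have := card_union_le A P
      omega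
    have hApos : 0 < A.card := card_pos.mpr hAne
    have hWpos : 0 < (A ∪ P).card := card_pos.mpr (hAne.mono subset_union_left)
    have h3 : ((A ∪ P).card : ℝ) * Real.logb 2 (A ∪ P).card ≤
        (2 * A.card) * Real.logb 2 (2 * A.card) := by
      have e1 : ((A ∪ P).card : ℝ) ≤ 2 * A.card := by exact_mod_cast hWcard
      have e2 : (1 : ℝ) ≤ (A ∪ P).card := by exact_mod_cast hWpos
      have e3 : Real.logb 2 (A ∪ P).card ≤ Real.logb 2 (2 * A.card) :=
        Real.logb_le_logb_of_le (by norm_num) (by linarith) e1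
      have e4 : 0 ≤ Real.logb 2 (A ∪ P).card := Real.logb_nonneg (by norm_num) e2
      nlinarith
    have h4 : (A.card : ℝ) * (2 * s + 1) ≤ (2 * A.card) * Real.logb 2 (2 * A.card) := by
      refine le_trans ?_ h3
      refine le_trans ?_ h2
      exact_mod_cast h1
    have hApos' : (0 : ℝ) < A.card := by exact_mod_cast hApos
    have h5 : (s : ℝ) < Real.logb 2 (2 * A.card) := by
      have : (2 * s + 1 : ℝ) ≤ 2 * Real.logb 2 (2 * A.card) := by
        by_contra hh
        push Not at hh
        nlinarith
      linarith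
    have h6 : 2 ^ s < 2 * A.card := by
      rw [Real.lt_logb_iff_rpow_lt (by norm_num) (by positivity), Real.rpow_natCast] at h5
      exact_mod_cast h5
    have h7 : n * (n + 1) ^ 4 < A.card := by
      have : (n + 1) ^ 5 = n * (n + 1) ^ 4 + (n + 1) ^ 4 := by ring
      have h8 : 0 < (n + 1) ^ 4 := by positivity
      omega
    obtain ⟨l, hl, hlA⟩ := exists_chain A hAne hconn n h7
    obtain ⟨x, hx, hxU⟩ := hU l hl
    exact hxU (hAU (hlA x hx))
  obtain ⟨χ, h1, h2⟩ := beck_fiala S U (2 * s) main
  refine ⟨χ, h1, fun v => ?_⟩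
  have := h2 v
  push_cast at this
  linarith

end Pool.Agent.Lib.MP_3166d6_co
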