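import Pool.Agent.Lib.MP_3166d6_co.Basics

/-! The lower bound: a union bound over all colourings. -/

open Finset

namespace Pool.Agent.Lib.MP_3166d6_co

variable {n : ℕ}

lemma cb_sq (m : ℕ) : (Nat.centralBinom m) ^ 2 * (2 * m + 1) ≤ 16 ^ m := by
  induction m with
  | zero => simp
  | succ m ih =>
    have h := Nat.succ_mul_centralBinom_succ m
    have h1 : (m + 1) ^ 2 * ((Nat.centralBinom (m + 1)) ^ 2 * (2 * (m + 1) + 1)) ≤
        (m + 1) ^ 2 * 16 ^ (m + 1) := by
      calc (m + 1) ^ 2 * ((Nat.centralBinom (m + 1)) ^ 2 * (2 * (m + 1) + 1))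
          = ((m + 1) * Nat.centralBinom (m + 1)) ^ 2 * (2 * m + 3) := by ring
        _ = (2 * (2 * m + 1) * Nat.centralBinom m) ^ 2 * (2 * m + 3) := by rw [h]
        _ = 4 * ((2 * m + 1) * (2 * m + 3)) * ((Nat.centralBinom m) ^ 2 * (2 * m + 1)) := by ring
        _ ≤ 4 * ((2 * m + 1) * (2 * m + 3)) * 16 ^ m := Nat.mul_le_mul_left _ ih
        _ ≤ 4 * (4 * (m + 1) ^ 2) * 16 ^ m := by
            apply Nat.mul_le_mul_right
            apply Nat.mul_le_mul_left
            nlinarith
        _ = (m + 1) ^ 2 * 16 ^ (m + 1) := by ring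
    exact Nat.le_of_mul_le_mul_left h1 (by positivity)

lemma choose_half_sq (n : ℕ) : (n.choose (n / 2)) ^ 2 * n ≤ 4 ^ n := by
  rcases Nat.even_or_odd' n with ⟨m, rfl | rfl⟩
  · have h1 : 2 * m / 2 = m := by omega
    rw [h1, ← Nat.centralBinom_eq_two_mul_choose]
    calc _ ≤ (Nat.centralBinom m) ^ 2 * (2 * m + 1) := Nat.mul_le_mul_left _ (by omega)
      _ ≤ 16 ^ m := cb_sq m
      _ = 4 ^ (2 * m) := by rw [pow_mul]; norm_num
  · have h1 : (2 * m + 1) / 2 = m := by omega
    rw [h1]
    have h2 : Nat.centralBinom (m + 1) = 2 * (2 * m + 1).choose m := by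
      rw [Nat.centralBinom_eq_two_mul_choose, show 2 * (m + 1) = 2 * m + 1 + 1 by ring,
        Nat.choose_succ_succ, Nat.choose_symm_half]
      ring
    have h3 := cb_sq (m + 1)
    rw [h2] at h3
    have h4 : 4 * (((2 * m + 1).choose m) ^ 2 * (2 * m + 1)) ≤ 4 * 4 ^ (2 * m + 1) := by
      calc 4 * (((2 * m + 1).choose m) ^ 2 * (2 * m + 1))
          ≤ 4 * (((2 * m + 1).choose m) ^ 2 * (2 * (m + 1) + 1)) := by
            apply Nat.mul_le_mul_left
            apply Nat.mul_le_mul_left
            omega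
        _ = (2 * (2 * m + 1).choose m) ^ 2 * (2 * (m + 1) + 1) := by ring
        _ ≤ 16 ^ (m + 1) := h3
        _ = 4 * 4 ^ (2 * m + 1) := by
            rw [show (16 : ℕ) = 4 ^ 2 by norm_num, ← pow_mul, ← pow_succ']
            congr 1
    exact Nat.le_of_mul_le_mul_left h4 (by norm_num)

/-- small signed subset sums are rare -/
lemma card_small_sums {V : Type*} [DecidableEq V] (W : Finset V) (χ : V → ℤ)
    (hχ : ∀ x, χ x = 1 ∨ χ x = -1) (k : ℕ) :
    (W.powerset.filter fun A => |∑ x ∈ A, χ x| ≤ (k : ℤ)).card ≤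
      (2 * k + 1) * W.card.choose (W.card / 2) := by
  set M := W.filter (fun x => χ x = -1) with hM
  have hmap : ∀ A ⊆ W, ((symmDiff A M).card : ℤ) = ∑ x ∈ A, χ x + M.card := by
    intro A hA
    have h1 : (symmDiff A M).card = (A \ M).card + (M \ A).card := by
      rw [symmDiff_def, sup_eq_union, card_union_of_disjoint]
      exact disjoint_sdiff_sdiff
    have h2 : (M \ A).card + (M ∩ A).card = M.card := card_sdiff_add_card_inter M A
    have h3 : ∑ x ∈ A, χ x = ((A \ M).card : ℤ) - (A ∩ M).card := by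
      rw [← sum_inter_add_sum_sdiff A M χ]
      have e1 : ∑ x ∈ A \ M, χ x = ((A \ M).card : ℤ) := by
        rw [card_eq_sum_ones, Nat.cast_sum]
        refine sum_congr rfl fun x hx => ?_
        rw [mem_sdiff] at hx
        rcases hχ x with h | h
        · simp [h]
        · exact absurd (mem_filter.mpr ⟨hA hx.1, h⟩) hx.2
      have e2 : ∑ x ∈ A ∩ M, χ x = -((A ∩ M).card : ℤ) := by
        rw [card_eq_sum_ones, Nat.cast_sum, ← sum_neg_distrib]
        refine sum_congr rfl fun x hx => ?_
        rw [mem_inter, hM, mem_filter] at hx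
        simp [hx.2.2]
      rw [e1, e2]; ring
    rw [h1, h3, inter_comm A M, ← h2]
    push_cast
    ring
  calc (W.powerset.filter fun A => |∑ x ∈ A, χ x| ≤ (k : ℤ)).card
      ≤ ((Icc (M.card - k) (M.card + k)).biUnion fun t => W.powersetCard t).card := by
        refine card_le_card_of_injOn (fun A => symmDiff A M) ?_ ?_
        · intro A hA
          rw [mem_coe, mem_filter, mem_powerset] at hA
          rw [mem_coe, mem_biUnion]
          refine ⟨(symmDiff A M).card, ?_, ?_⟩
          · have h1 := hmap A hA.1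
            have h2 := abs_le.mp hA.2
            rw [mem_Icc]
            omega
          · rw [mem_powersetCard]
            refine ⟨?_, rfl⟩
            intro x hx
            rw [mem_symmDiff] at hx
            rcases hx with ⟨h, _⟩ | ⟨h, _⟩
            · exact hA.1 h
            · exact (mem_filter.mp h).1
        · intro A _ B _ h
          simpa using congrArg (fun Z => symmDiff Z M) h
    _ ≤ ∑ t ∈ Icc (M.card - k) (M.card + k), (W.powersetCard t).card := card_biUnion_le
    _ ≤ ∑ t ∈ Icc (M.card - k) (M.card + k), W.card.choose (W.card / 2) := by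
        refine sum_le_sum fun t _ => ?_
        rw [card_powersetCard]
        exact Nat.choose_le_middle t W.card
    _ = (Icc (M.card - k) (M.card + k)).card * W.card.choose (W.card / 2) := by
        rw [sum_const, smul_eq_mul]
    _ ≤ _ := by
        apply Nat.mul_le_mul_right
        rw [Nat.card_Icc]
        omega

/-- all families `(S v)` with `S v ⊆ nb v` -/
def Fam (n : ℕ) : Finset (Q n → Finset (Q n)) :=
  Fintype.piFinset fun v => (nb v).powerset

lemma card_Fam : (Fam n).card = (2 ^ n) ^ (2 ^ n) := by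
  unfold Fam
  rw [Fintype.card_piFinset]
  simp [card_powerset, card_nb]

open Classical in
theorem lower_bound {k : ℕ} (hk : 16 * (2 * k + 1) ^ 2 ≤ n) :
    (((Fam n).filter fun S => ∃ χ : Q n → ℤ, (∀ v, χ v = 1 ∨ χ v = -1) ∧
      ∀ v, |∑ x ∈ S v, χ x| ≤ (k : ℤ)).card : ℝ) ≤ (1 / 2) ^ (2 ^ n) * (Fam n).card := by
  have hn : 0 < n := by nlinarith [Nat.zero_le k, sq_nonneg (2 * k + 1)]
  -- colourings as boolean functions
  have hsub : ((Fam n).filter fun S => ∃ χ : Q n → ℤ, (∀ v, χ v = 1 ∨ χ v = -1) ∧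
      ∀ v, |∑ x ∈ S v, χ x| ≤ (k : ℤ)) ⊆
      (univ : Finset (Q n → Bool)).biUnion fun b =>
        Fintype.piFinset fun v => (nb v).powerset.filter
          fun A => |∑ x ∈ A, (if b x = true then (1 : ℤ) else -1)| ≤ (k : ℤ) := by
    intro S hS
    rw [mem_filter] at hS
    obtain ⟨hS, χ, hχ, hsum⟩ := hS
    rw [Fam, Fintype.mem_piFinset] at hS
    rw [mem_biUnion]
    refine ⟨fun x => decide (χ x = 1), mem_univ _, ?_⟩
    rw [Fintype.mem_piFinset]
    intro v
    rw [mem_filter]
    refine ⟨hS v, ?_⟩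
    have : ∀ x, (if decide (χ x = 1) = true then (1 : ℤ) else -1) = χ x := by
      intro x
      rcases hχ x with h | h <;> simp [h]
    simp only [this]
    exact hsum v
  have h1 : ((Fam n).filter fun S => ∃ χ : Q n → ℤ, (∀ v, χ v = 1 ∨ χ v = -1) ∧
      ∀ v, |∑ x ∈ S v, χ x| ≤ (k : ℤ)).card ≤
      2 ^ (2 ^ n) * ((2 * k + 1) * n.choose (n / 2)) ^ (2 ^ n) := by
    refine le_trans (card_le_card hsub) (le_trans card_biUnion_le ?_)
    calc _ ≤ ∑ b : Q n → Bool, ((2 * k + 1) * n.choose (n / 2)) ^ (2 ^ n) := by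
          refine sum_le_sum fun b _ => ?_
          rw [Fintype.card_piFinset]
          calc _ ≤ ∏ v : Q n, ((2 * k + 1) * n.choose (n / 2)) := by
                refine prod_le_prod' fun v _ => ?_
                have := card_small_sums (nb v) (fun x => if b x = true then (1 : ℤ) else -1)
                  (fun x => by by_cases h : b x = true <;> simp [h]) k
                rw [card_nb] at this
                exact this
            _ = _ := by simp [prod_const]
      _ = _ := by simp [sum_const]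
  have h2 : 4 * ((2 * k + 1) * n.choose (n / 2)) ≤ 2 ^ n := by
    have h3 := choose_half_sq n
    have h4 : (4 * ((2 * k + 1) * n.choose (n / 2))) ^ 2 * n ≤ (2 ^ n) ^ 2 * n := by
      calc (4 * ((2 * k + 1) * n.choose (n / 2))) ^ 2 * n
          = 16 * (2 * k + 1) ^ 2 * ((n.choose (n / 2)) ^ 2 * n) := by ring
        _ ≤ n * 4 ^ n := Nat.mul_le_mul hk h3
        _ = (2 ^ n) ^ 2 * n := by
            rw [← pow_mul, mul_comm n 2, pow_mul]; norm_num [mul_comm]
    have h5 := Nat.le_of_mul_le_mul_right h4 hn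
    exact (Nat.pow_le_pow_iff_left (by norm_num)).mp h5
  rw [card_Fam]
  have h3 : (((Fam n).filter fun S => ∃ χ : Q n → ℤ, (∀ v, χ v = 1 ∨ χ v = -1) ∧
      ∀ v, |∑ x ∈ S v, χ x| ≤ (k : ℤ)).card : ℝ) ≤
      2 ^ (2 ^ n) * ((2 * k + 1) * n.choose (n / 2)) ^ (2 ^ n) := by exact_mod_cast h1
  refine le_trans h3 ?_
  have h4 : (4 : ℝ) * ((2 * k + 1) * n.choose (n / 2)) ≤ 2 ^ n := by exact_mod_cast h2
  push_cast
  rw [← mul_pow, ← mul_pow]
  apply pow_le_pow_left₀ (by positivity)
  linarith

end Pool.Agent.Lib.MP_3166d6_co
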