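import Pool.Agent.Lib.MP_3166d6_co.Potential

/-! Numerical estimates: rejected stars have potential at least one, and the initial potential is
tiny. -/

open Finset

namespace Pool.Agent.Lib.MP_3166d6_co

variable {n : ℕ}

/-- `⌈n / 8^j⌉` for `n ≥ 1` -/
def mm (n j : ℕ) : ℕ := (n - 1) / 8 ^ j + 1

/-- the square of the barrier -/
noncomputable def NN (n : ℕ) : ℝ := 29491200 * n

lemma geom4 (J : ℕ) : ∑ j ∈ Icc 1 J, (3 : ℝ) * 4 ^ j = 4 ^ (J + 1) - 4 := by
  induction J with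
  | zero => simp
  | succ J ih =>
    rw [sum_Icc_succ_top (by omega), ih]; ring

lemma sq_le_dyadic (J : ℕ) (y : ℝ) (hy : 0 ≤ y) (hyJ : y < 2 ^ (J + 1)) :
    y ^ 2 ≤ 4 + ∑ j ∈ Icc 1 J, (if (2 : ℝ) ^ j ≤ y then 3 * 4 ^ j else 0) := by
  induction J with
  | zero =>
    simp only [zero_add, pow_one] at hyJ
    simp
    nlinarith
  | succ J ih =>
    by_cases h : y < 2 ^ (J + 1)
    · rw [sum_Icc_succ_top (by omega)]
      have := ih h
      have h2 : (0 : ℝ) ≤ if (2 : ℝ) ^ (J + 1) ≤ y then 3 * 4 ^ (J + 1) else 0 := by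
        split_ifs <;> positivity
      linarith
    · push Not at h
      have h1 : ∑ j ∈ Icc 1 (J + 1), (if (2 : ℝ) ^ j ≤ y then (3 : ℝ) * 4 ^ j else 0) =
          ∑ j ∈ Icc 1 (J + 1), (3 : ℝ) * 4 ^ j := by
        refine sum_congr rfl fun j hj => ?_
        rw [mem_Icc] at hj
        rw [if_pos]
        exact le_trans (pow_le_pow_right₀ (by norm_num) hj.2) h
      rw [h1, geom4]
      have h2 : y ^ 2 ≤ (2 ^ (J + 1 + 1)) ^ 2 := pow_le_pow_left₀ hy hyJ.le 2
      have h3 : ((2 : ℝ) ^ (J + 1 + 1)) ^ 2 = 4 ^ (J + 1 + 1) := by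
        rw [← pow_mul, mul_comm, pow_mul]; norm_num
      linarith

lemma geom_half (J : ℕ) : ∑ j ∈ Icc 1 J, (1 / 2 : ℝ) ^ j ≤ 1 := by
  have : ∑ j ∈ Icc 1 J, (1 / 2 : ℝ) ^ j = 1 - (1 / 2) ^ J := by
    induction J with
    | zero => simp
    | succ J ih => rw [sum_Icc_succ_top (by omega), ih]; ring
  rw [this]
  have : (0 : ℝ) ≤ (1 / 2) ^ J := by positivity
  linarith

/-- dyadic pigeonhole -/
lemma exists_level {J : ℕ} (hJ : n ≤ 8 ^ J) (hJ1 : 1 ≤ J) (y : Fin n → ℝ) (hy : ∀ i, 0 ≤ y i)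
    (hsum : 8 * (n : ℝ) < ∑ i, y i ^ 2) :
    ∃ j ∈ Icc 1 J, mm n j ≤ (univ.filter fun i => (2 : ℝ) ^ j ≤ y i).card := by
  by_contra hcon
  push Not at hcon
  have hn : 0 < n := by
    rcases Nat.eq_zero_or_pos n with h | h
    · subst h; simp at hsum
    · exact h
  have hc : ∀ j ∈ Icc 1 J, (univ.filter fun i => (2 : ℝ) ^ j ≤ y i).card * 8 ^ j ≤ n - 1 := by
    intro j hj
    have h1 := hcon j hj
    unfold mm at h1
    have h2 : (univ.filter fun i => (2 : ℝ) ^ j ≤ y i).card ≤ (n - 1) / 8 ^ j := by omega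
    calc _ ≤ (n - 1) / 8 ^ j * 8 ^ j := Nat.mul_le_mul_right _ h2
      _ ≤ n - 1 := Nat.div_mul_le_self _ _
  have hlt : ∀ i, y i < 2 ^ (J + 1) := by
    intro i
    by_contra h
    push Not at h
    have hi : i ∈ univ.filter fun i => (2 : ℝ) ^ J ≤ y i := by
      simp only [mem_filter, mem_univ, true_and]
      exact le_trans (pow_le_pow_right₀ (by norm_num) (Nat.le_succ J)) h
    have h1 : 1 ≤ (univ.filter fun i => (2 : ℝ) ^ J ≤ y i).card := card_pos.mpr ⟨i, hi⟩
    have h2 := hc J (mem_Icc.mpr ⟨hJ1, le_rfl⟩)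
    have h3 : 1 * 8 ^ J ≤ (univ.filter fun i => (2 : ℝ) ^ J ≤ y i).card * 8 ^ J :=
      Nat.mul_le_mul_right _ h1
    omega
  have h1 : ∑ i, y i ^ 2 ≤ ∑ i : Fin n, (4 + ∑ j ∈ Icc 1 J,
      (if (2 : ℝ) ^ j ≤ y i then (3 : ℝ) * 4 ^ j else 0)) :=
    sum_le_sum fun i _ => sq_le_dyadic J (y i) (hy i) (hlt i)
  rw [sum_add_distrib, sum_comm] at h1
  have h2 : ∀ j ∈ Icc 1 J, ∑ i, (if (2 : ℝ) ^ j ≤ y i then (3 : ℝ) * 4 ^ j else 0) ≤
      3 * n * (1 / 2) ^ j := by
    intro j hj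
    rw [← sum_filter, sum_const, nsmul_eq_mul]
    have h3 : ((univ.filter fun i => (2 : ℝ) ^ j ≤ y i).card : ℝ) * 8 ^ j ≤ n := by
      have := hc j hj
      have h4 : (univ.filter fun i => (2 : ℝ) ^ j ≤ y i).card * 8 ^ j ≤ n := by omega
      exact_mod_cast h4
    have h5 : (8 : ℝ) ^ j = 4 ^ j * 2 ^ j := by rw [← mul_pow]; norm_num
    rw [h5] at h3
    have h6 : (0 : ℝ) < 2 ^ j := by positivity
    have h7 : (1 / 2 : ℝ) ^ j = 1 / 2 ^ j := by rw [div_pow, one_pow]
    rw [h7, mul_one_div, le_div_iff₀ h6]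
    nlinarith
  have h3 := sum_le_sum h2
  rw [← mul_sum] at h3
  have h4 := geom_half J
  have h5 : (0 : ℝ) < n := by exact_mod_cast hn
  have h6 : 3 * (n : ℝ) * ∑ j ∈ Icc 1 J, (1 / 2 : ℝ) ^ j ≤ 3 * n * 1 :=
    mul_le_mul_of_nonneg_left h4 (by positivity)
  simp only [sum_const, card_univ, Fintype.card_fin, nsmul_eq_mul] at h1
  linarith

/-- rejected stars have potential at least one -/
theorem bad_star {J : ℕ} (hJ : n ≤ 8 ^ J) (hJ1 : 1 ≤ J) (D : Q n → ℤ) (l : List (Q n)) (u : Q n)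
    (hD : ∀ v, ((D v : ℤ) : ℝ) ^ 2 < NN n) (hg : ¬ good (NN n) D u) :
    1 ≤ Th (NN n) J (mm n) D l u := by
  have hN0 : 0 < NN n := lt_of_le_of_lt (sq_nonneg _) (hD u)
  have hn : (0 : ℝ) < n := by
    unfold NN at hN0; linarith
  unfold good at hg
  push Not at hg
  set y : Fin n → ℝ := fun i => NN n / (NN n - ((D (fl u i) : ℤ) : ℝ) ^ 2) with hy
  have hr : ∀ i, 0 < NN n - ((D (fl u i) : ℤ) : ℝ) ^ 2 := fun i => by
    have := hD (fl u i); linarith
  have hy0 : ∀ i, 0 < y i := fun i => div_pos hN0 (hr i)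
  have hyy : ∀ i, y i ^ 2 - y i = 2048 * n * dl (NN n) D u i ^ 2 := by
    intro i
    simp only [hy, dl, del]
    have hne := (hr i).ne'
    have hN : (n : ℝ) = NN n / 29491200 := by unfold NN; ring
    rw [hN]
    field_simp
    ring
  obtain ⟨j, hj, hjc⟩ := exists_level hJ hJ1 y (fun i => (hy0 i).le) (by
    have h1 : ∑ i, y i ^ 2 = ∑ i, y i + 2048 * n * ∑ i, dl (NN n) D u i ^ 2 := by
      rw [mul_sum, ← sum_add_distrib]
      refine sum_congr rfl fun i _ => ?_
      rw [← hyy i]; ring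
    have h2 : 0 ≤ ∑ i, y i := sum_nonneg fun i _ => (hy0 i).le
    have h3 : 2048 * (n : ℝ) * (1 / 256) < 2048 * n * ∑ i, dl (NN n) D u i ^ 2 :=
      mul_lt_mul_of_pos_left hg (by positivity)
    linarith)
  obtain ⟨A', hA', hA'c⟩ := exists_subset_card_eq hjc
  set A := A'.image (fl u) with hA
  have hAc : A.card = mm n j := by
    rw [hA, card_image_of_injective _ (fl_injective u), hA'c]
  have hAnb : A ⊆ nb u := by
    intro v hv
    rw [hA, mem_image] at hv
    obtain ⟨i, _, rfl⟩ := hv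
    exact fl_mem_nb u i
  have hterm : 1 ≤ (1 / 2 ^ (60 * j * mm n j)) * ∏ v ∈ A, Ph (NN n) D l v := by
    have h1 : ∏ v ∈ A, ((2 : ℝ) ^ (60 * j)) ≤ ∏ v ∈ A, Ph (NN n) D l v := by
      refine prod_le_prod (fun v _ => by positivity) fun v hv => ?_
      rw [hA, mem_image] at hv
      obtain ⟨i, hi, rfl⟩ := hv
      have h2 := hA' hi
      simp only [mem_filter, mem_univ, true_and] at h2
      unfold Ph
      have h3 : (2 : ℝ) ^ (60 * j) ≤ G (NN n) (D (fl u i)) := by
        unfold G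
        rw [mul_comm, pow_mul]
        exact pow_le_pow_left₀ (by positivity) h2 60
      have h4 : 1 ≤ (1 + 60 / NN n) ^ kk l (fl u i) := one_le_pow₀ (one_le_rho hN0)
      have h5 := (G_pos hN0 (hD (fl u i))).le
      nlinarith
    rw [prod_const, hAc, ← pow_mul] at h1
    rw [one_div, ← div_eq_inv_mul, le_div_iff₀ (by positivity), one_mul]
    exact h1
  have hnn : ∀ (j : ℕ) (A : Finset (Q n)),
      0 ≤ (1 / 2 ^ (60 * j * mm n j)) * ∏ v ∈ A, Ph (NN n) D l v := fun j A =>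
    mul_nonneg (by positivity) (prod_nonneg fun v _ => (Ph_pos hN0 hD l v).le)
  unfold Th
  refine le_trans hterm (le_trans (single_le_sum
    (f := fun A => (1 / 2 ^ (60 * j * mm n j)) * ∏ v ∈ A, Ph (NN n) D l v)
    (fun A _ => hnn j A) (mem_powersetCard.mpr ⟨hAnb, hAc⟩)) ?_)
  exact single_le_sum (f := fun j => ∑ A ∈ (nb u).powersetCard (mm n j),
    (1 / 2 ^ (60 * j * mm n j)) * ∏ v ∈ A, Ph (NN n) D l v)
    (fun j _ => sum_nonneg fun A _ => hnn j A) hj

lemma kk_le (l : List (Q n)) (hl : l.Nodup) (v : Q n) : kk l v ≤ n := by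
  unfold kk
  rw [List.countP_eq_length_filter]
  have h1 : (l.filter fun w => decide (w ∈ nb v)).Nodup := hl.filter _
  rw [← List.toFinset_card_of_nodup h1]
  refine le_trans (card_le_card (t := nb v) fun w hw => ?_) (card_nb v).le
  rw [List.mem_toFinset, List.mem_filter] at hw
  simpa using hw.2

lemma rho_pow_le (hn : 0 < n) {k : ℕ} (hk : k ≤ n) : (1 + 60 / NN n) ^ k ≤ 4 := by
  have hn' : (0 : ℝ) < n := by exact_mod_cast hn
  have hN0 : 0 < NN n := by unfold NN; positivity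
  calc (1 + 60 / NN n) ^ k ≤ (1 + 60 / NN n) ^ n := pow_le_pow_right₀ (one_le_rho hN0) hk
    _ ≤ (Real.exp (60 / NN n)) ^ n := by
        apply pow_le_pow_left₀ (by positivity)
        rw [add_comm]; exact Real.add_one_le_exp _
    _ = Real.exp (n * (60 / NN n)) := by rw [← Real.exp_nat_mul]
    _ ≤ Real.exp 1 := by
        apply Real.exp_le_exp.mpr
        unfold NN
        rw [show (n : ℝ) * (60 / (29491200 * n)) = 60 / 29491200 by field_simp]
        norm_num
    _ ≤ 4 := by have := Real.exp_one_lt_d9; linarith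

lemma choose_bound {m j : ℕ} (hm : n ≤ 8 ^ j * m) : (n.choose m : ℝ) ≤ (2 ^ (3 * j + 2)) ^ m := by
  calc (n.choose m : ℝ) ≤ (n : ℝ) ^ m / (m.factorial : ℝ) := Nat.choose_le_pow_div m n
    _ ≤ ((8 : ℝ) ^ j * m) ^ m / m.factorial := by
        apply div_le_div_of_nonneg_right _ (by positivity)
        apply pow_le_pow_left₀ (by positivity)
        exact_mod_cast hm
    _ = (8 ^ j) ^ m * ((m : ℝ) ^ m / m.factorial) := by rw [mul_pow]; ring
    _ ≤ (8 ^ j) ^ m * Real.exp m := by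
        apply mul_le_mul_of_nonneg_left _ (by positivity)
        exact Real.pow_div_factorial_le_exp _ (by positivity) m
    _ = (8 ^ j) ^ m * (Real.exp 1) ^ m := by
        rw [← Real.exp_nat_mul, mul_one]
    _ ≤ (8 ^ j) ^ m * 4 ^ m := by
        apply mul_le_mul_of_nonneg_left _ (by positivity)
        apply pow_le_pow_left₀ (Real.exp_pos _).le
        have := Real.exp_one_lt_d9; linarith
    _ = (2 ^ (3 * j + 2)) ^ m := by
        rw [← mul_pow]
        congr 1
        rw [pow_add, pow_mul]; norm_num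

lemma pow8_ge (a : ℕ) : a + 1 ≤ 8 ^ a := by
  induction a with
  | zero => simp
  | succ a ih => rw [pow_succ]; omega

lemma mm_ge {J j : ℕ} (hJ : 8 ^ (J - 1) < n) (hj1 : 1 ≤ j) (hj : j ≤ J) : J - j + 1 ≤ mm n j := by
  unfold mm
  rcases Nat.lt_or_ge j J with h | h
  · have h1 : 8 ^ (J - 1) ≤ n - 1 := by omega
    have h2 : 8 ^ (J - 1) = 8 ^ (J - 1 - j) * 8 ^ j := by
      rw [← pow_add]; congr 1; omega
    have h3 : 8 ^ (J - 1 - j) ≤ (n - 1) / 8 ^ j := by
      rw [Nat.le_div_iff_mul_le (by positivity), ← h2]; exact h1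
    have h4 := pow8_ge (J - 1 - j)
    omega
  · have h0 : J - j = 0 := by omega
    rw [h0, zero_add]
    exact Nat.le_add_left _ _

lemma le_mul_mm (hn : 0 < n) (j : ℕ) : n ≤ 8 ^ j * mm n j := by
  unfold mm
  have h1 := Nat.div_add_mod (n - 1) (8 ^ j)
  have h2 := Nat.mod_lt (n - 1) (show 0 < 8 ^ j by positivity)
  rw [mul_add, mul_one]
  omega

/-- the initial potential is tiny -/
theorem initial_potential {J : ℕ} (hJ : 8 ^ (J - 1) < n) (l : List (Q n)) (hl : l.Nodup)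
    (u : Q n) : Th (NN n) J (mm n) (fun _ => 0) l u ≤ J * (1 / 2) ^ (53 * J) := by
  have hn : 0 < n := lt_of_le_of_lt (Nat.zero_le _) hJ
  have hn' : (0 : ℝ) < n := by exact_mod_cast hn
  have hN0 : 0 < NN n := by unfold NN; positivity
  have hPh : ∀ v, Ph (NN n) (fun _ => 0) l v ≤ 4 := by
    intro v
    unfold Ph
    have : G (NN n) 0 = 1 := by
      unfold G
      rw [Int.cast_zero, zero_pow (by norm_num), sub_zero, div_self hN0.ne', one_pow]
    rw [this, one_mul]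
    exact rho_pow_le hn (kk_le l hl v)
  have hPh0 : ∀ v, 0 ≤ Ph (NN n) (fun _ => 0) l v := by
    intro v
    exact (Ph_pos hN0 (fun v => by simpa using hN0) l v).le
  unfold Th
  calc _ ≤ ∑ j ∈ Icc 1 J, (1 / 2 : ℝ) ^ (53 * J) := by
        refine sum_le_sum fun j hj => ?_
        rw [mem_Icc] at hj
        set m := mm n j with hm
        have h1 : ∑ A ∈ (nb u).powersetCard m, (1 / 2 ^ (60 * j * m)) *
            ∏ v ∈ A, Ph (NN n) (fun _ => 0) l v ≤
            ∑ A ∈ (nb u).powersetCard m, (1 / 2 ^ (60 * j * m)) * (4 : ℝ) ^ m := by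
          refine sum_le_sum fun A hA => ?_
          apply mul_le_mul_of_nonneg_left _ (by positivity)
          rw [mem_powersetCard] at hA
          calc _ ≤ ∏ v ∈ A, (4 : ℝ) := prod_le_prod (fun v _ => hPh0 v) fun v _ => hPh v
            _ = 4 ^ m := by rw [prod_const, hA.2]
        refine le_trans h1 ?_
        rw [sum_const, card_powersetCard, card_nb, nsmul_eq_mul]
        have h2 := choose_bound (n := n) (m := m) (j := j) (le_mul_mm hn j)
        have h3 : (n.choose m : ℝ) * ((1 / 2 ^ (60 * j * m)) * (4 : ℝ) ^ m) ≤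
            (2 ^ (3 * j + 2)) ^ m * ((1 / 2 ^ (60 * j * m)) * (4 : ℝ) ^ m) :=
          mul_le_mul_of_nonneg_right h2 (by positivity)
        refine le_trans h3 ?_
        have h4 : ((2 : ℝ) ^ (3 * j + 2)) ^ m * ((1 / 2 ^ (60 * j * m)) * (4 : ℝ) ^ m) =
            2 ^ ((3 * j + 4) * m) / 2 ^ (60 * j * m) := by
          have : (4 : ℝ) ^ m = 2 ^ (2 * m) := by rw [pow_mul]; norm_num
          rw [this, ← pow_mul, mul_comm (1 / _), ← mul_assoc, ← pow_add, mul_one_div]
          congr 2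
          ring
        rw [h4, one_div, inv_pow, div_le_iff₀ (by positivity), ← div_eq_inv_mul,
          le_div_iff₀ (by positivity), ← pow_add]
        apply pow_le_pow_right₀ (by norm_num)
        have h5 := mm_ge hJ hj.1 hj.2
        rw [← hm] at h5
        have h6 : J ≤ j * m := by
          obtain ⟨a, rfl⟩ : ∃ a, j = a + 1 := ⟨j - 1, by omega⟩
          obtain ⟨b, rfl⟩ : ∃ b, J = a + 1 + b := ⟨J - (a + 1), by omega⟩
          have h7 : b + 1 ≤ m := by omega
          nlinarith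
        have h8 : 1 * m ≤ j * m := Nat.mul_le_mul_right m hj.1
        nlinarith
    _ = J * (1 / 2) ^ (53 * J) := by
        rw [sum_const, Nat.card_Icc, nsmul_eq_mul]; simp

end Pool.Agent.Lib.MP_3166d6_co
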