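import Pool.Agent.Lib.MP_3166d6_co.Walk

/-! The star potential and its evolution along the walk. -/

open Finset

namespace Pool.Agent.Lib.MP_3166d6_co

variable {n : ℕ}

/-- number of future changes of the sum at `v` -/
def kk (l : List (Q n)) (v : Q n) : ℕ := l.countP fun w => decide (w ∈ nb v)

/-- the potential of `v` with the allowance for the future growth -/
noncomputable def Ph (N : ℝ) (D : Q n → ℤ) (l : List (Q n)) (v : Q n) : ℝ :=
  G N (D v) * (1 + 60 / N) ^ kk l v

/-- the star potential around `u` -/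
noncomputable def Th (N : ℝ) (J : ℕ) (m : ℕ → ℕ) (D : Q n → ℤ) (l : List (Q n)) (u : Q n) : ℝ :=
  ∑ j ∈ Icc 1 J, ∑ A ∈ (nb u).powersetCard (m j), (1 / 2 ^ (60 * j * m j)) * ∏ v ∈ A, Ph N D l v

lemma kk_cons (w : Q n) (l : List (Q n)) (v : Q n) :
    kk (w :: l) v = kk l v + if w ∈ nb v then 1 else 0 := by
  unfold kk
  rw [List.countP_cons]
  simp

lemma Ph_pos {N : ℝ} {D : Q n → ℤ} (hN : 0 < N) (hD : ∀ v, ((D v : ℤ) : ℝ) ^ 2 < N)
    (l : List (Q n)) (v : Q n) : 0 < Ph N D l v := by
  unfold Ph
  exact mul_pos (G_pos hN (hD v)) (by positivity)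

lemma one_le_rho {N : ℝ} (hN : 0 < N) : 1 ≤ 1 + 60 / N := by
  have : 0 < 60 / N := by positivity
  linarith

lemma Ph_mono {N : ℝ} {D : Q n → ℤ} (hN : 0 < N) (hD : ∀ v, ((D v : ℤ) : ℝ) ^ 2 < N)
    (w : Q n) (l : List (Q n)) (v : Q n) : Ph N D l v ≤ Ph N D (w :: l) v := by
  unfold Ph
  apply mul_le_mul_of_nonneg_left _ (G_pos hN (hD v)).le
  apply pow_le_pow_right₀ (one_le_rho hN)
  rw [kk_cons]; omega

lemma Th_nonneg {N : ℝ} {D : Q n → ℤ} (hN : 0 < N) (hD : ∀ v, ((D v : ℤ) : ℝ) ^ 2 < N)
    (J : ℕ) (m : ℕ → ℕ) (l : List (Q n)) (u : Q n) : 0 ≤ Th N J m D l u := by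
  unfold Th
  refine sum_nonneg fun j _ => sum_nonneg fun A _ => mul_nonneg (by positivity) ?_
  exact prod_nonneg fun v _ => (Ph_pos hN hD l v).le

lemma Th_mono {N : ℝ} {D : Q n → ℤ} (hN : 0 < N) (hD : ∀ v, ((D v : ℤ) : ℝ) ^ 2 < N)
    (J : ℕ) (m : ℕ → ℕ) (w : Q n) (l : List (Q n)) (u : Q n) :
    Th N J m D l u ≤ Th N J m D (w :: l) u := by
  unfold Th
  refine sum_le_sum fun j _ => sum_le_sum fun A _ => mul_le_mul_of_nonneg_left ?_ (by positivity)
  exact prod_le_prod (fun v _ => (Ph_pos hN hD l v).le) fun v _ => Ph_mono hN hD w l v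

/-- far vertices do not influence the star potential -/
lemma Th_far {N : ℝ} {D : Q n → ℤ} {J : ℕ} {m : ℕ → ℕ} {l : List (Q n)} {u w : Q n}
    (h : 3 ≤ hammingDist u w) (β : Q n) (c : ℤ) :
    Th N J m (upd w β c D) l u = Th N J m D l u := by
  unfold Th
  refine sum_congr rfl fun j _ => sum_congr rfl fun A hA => ?_
  have hpr : ∏ v ∈ A, Ph N (upd w β c D) l v = ∏ v ∈ A, Ph N D l v := by
    refine prod_congr rfl fun v hv => ?_
    rw [mem_powersetCard] at hA
    have hvu := hA.1 hv
    have hvw : v ∉ nb w := by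
      intro hvw
      have := inter_nb_eq_empty h
      have h2 : v ∈ nb u ∩ nb w := mem_inter.mpr ⟨hvu, hvw⟩
      rw [this] at h2
      simp at h2
    unfold Ph
    rw [upd_of_notMem _ _ _ _ hvw]
  rw [hpr]

/-- one step for the star potential at distance two -/
lemma Th_step {N : ℝ} {D : Q n → ℤ} (hN : 6009 ≤ N) (hD : ∀ v, ((D v : ℤ) : ℝ) ^ 2 < N)
    {w : Q n} (hg : good N D w) (J : ℕ) (m : ℕ → ℕ) (l : List (Q n)) {u : Q n} (huw : u ≠ w) :
    stepE N D w (fun D' => Th N J m D' l u) ≤ Th N J m D (w :: l) u := by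
  have hN0 : 0 < N := by linarith
  unfold Th
  rw [stepE_sum]
  refine sum_le_sum fun j _ => ?_
  rw [stepE_sum]
  refine sum_le_sum fun A hA => ?_
  rw [stepE_mul_left]
  refine mul_le_mul_of_nonneg_left ?_ (by positivity)
  rw [mem_powersetCard] at hA
  classical
  set B := A.filter (fun v => v ∈ nb w) with hB
  set B' := A.filter (fun v => v ∉ nb w) with hB'
  have hsplit : ∀ f : Q n → ℝ, ∏ v ∈ A, f v = (∏ v ∈ B, f v) * ∏ v ∈ B', f v := by
    intro f
    rw [hB, hB', prod_filter_mul_prod_filter_not]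
  have hBsub : B ⊆ nb w := fun v hv => (mem_filter.mp hv).2
  have hBcard : B.card ≤ 2 := by
    refine le_trans (card_le_card ?_) (card_inter_nb huw)
    intro v hv
    rw [mem_filter] at hv
    exact mem_inter.mpr ⟨hA.1 hv.1, hv.2⟩
  have h1 : stepE N D w (fun D' => ∏ v ∈ A, Ph N D' l v) ≤
      stepE N D w (fun D' => ((∏ v ∈ B, (1 + 60 / N) ^ kk l v) * ∏ v ∈ B', Ph N D l v) *
        ∏ v ∈ B, G N (D' v)) := by
    refine stepE_mono fun β c _ => ?_
    rw [hsplit]
    have e1 : ∏ v ∈ B', Ph N (upd w β c D) l v = ∏ v ∈ B', Ph N D l v := by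
      refine prod_congr rfl fun v hv => ?_
      unfold Ph
      rw [upd_of_notMem _ _ _ _ (mem_filter.mp hv).2]
    have e2 : ∏ v ∈ B, Ph N (upd w β c D) l v =
        (∏ v ∈ B, G N (upd w β c D v)) * ∏ v ∈ B, (1 + 60 / N) ^ kk l v := by
      rw [← prod_mul_distrib]; rfl
    rw [e1, e2]
    apply le_of_eq; ring
  refine le_trans h1 ?_
  rw [stepE_mul_left]
  have hc : 0 ≤ (∏ v ∈ B, (1 + 60 / N) ^ kk l v) * ∏ v ∈ B', Ph N D l v :=
    mul_nonneg (prod_nonneg fun v _ => by positivity)
      (prod_nonneg fun v _ => (Ph_pos hN0 hD l v).le)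
  refine le_trans (mul_le_mul_of_nonneg_left (step_prod hN hg hD B hBsub hBcard) hc) ?_
  rw [hsplit]
  have e3 : ∏ v ∈ B, Ph N D (w :: l) v =
      (1 + 60 / N) ^ B.card * (∏ v ∈ B, G N (D v)) * ∏ v ∈ B, (1 + 60 / N) ^ kk l v := by
    have : ∏ v ∈ B, Ph N D (w :: l) v =
        ∏ v ∈ B, ((1 + 60 / N) * G N (D v) * (1 + 60 / N) ^ kk l v) := by
      refine prod_congr rfl fun v hv => ?_
      unfold Ph
      rw [kk_cons, if_pos (mem_nb_comm.mp (hBsub hv)), pow_succ]
      ring
    rw [this, prod_mul_distrib, prod_mul_distrib, prod_const]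
  have e4 : ∏ v ∈ B', Ph N D l v ≤ ∏ v ∈ B', Ph N D (w :: l) v :=
    prod_le_prod (fun v _ => (Ph_pos hN0 hD l v).le) fun v _ => Ph_mono hN0 hD w l v
  rw [e3]
  have hG : 0 ≤ ∏ v ∈ B, G N (D v) := prod_nonneg fun v _ => (G_pos hN0 (hD v)).le
  calc (∏ v ∈ B, (1 + 60 / N) ^ kk l v) * (∏ v ∈ B', Ph N D l v) *
        ((1 + 60 / N) ^ B.card * ∏ v ∈ B, G N (D v))
      = ((1 + 60 / N) ^ B.card * (∏ v ∈ B, G N (D v)) * ∏ v ∈ B, (1 + 60 / N) ^ kk l v) *
        ∏ v ∈ B', Ph N D l v := by ring
    _ ≤ _ := by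
        apply mul_le_mul_of_nonneg_left e4
        exact mul_nonneg (mul_nonneg (by positivity) hG) (prod_nonneg fun v _ => by positivity)

open Classical in
/-- the probability bound for a far set to be contained in the set of rejected vertices -/
theorem EE_le {N : ℝ} (hN : 6009 ≤ N) (J : ℕ) (m : ℕ → ℕ)
    (hbad : ∀ (D : Q n → ℤ) (l : List (Q n)) (u : Q n), (∀ v, ((D v : ℤ) : ℝ) ^ 2 < N) →
      ¬ good N D u → 1 ≤ Th N J m D l u)
    (F : Finset (Q n)) (hF : ∀ u ∈ F, ∀ v ∈ F, u ≠ v → 5 ≤ hammingDist u v)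
    (l : List (Q n)) (hl : l.Nodup) (D : Q n → ℤ) (hD : ∀ v, ((D v : ℤ) : ℝ) ^ 2 < N)
    (U : Finset (Q n)) (hU : ∀ w ∈ l, w ∉ U) :
    EE N (fun U' => if F ⊆ U' then (1 : ℝ) else 0) l D U ≤
      (if ∀ u ∈ F, u ∈ l ∨ u ∈ U then (1 : ℝ) else 0) *
        ∏ u ∈ F.filter (fun u => u ∈ l), Th N J m D l u := by
  have hN0 : 0 < N := by linarith
  induction l generalizing D U with
  | nil =>
    simp only [EE, List.not_mem_nil, false_or, filter_false, prod_empty, mul_one]
    have hiff : F ⊆ U ↔ ∀ u ∈ F, u ∈ U := Iff.rfl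
    simp only [hiff, le_refl]
  | cons w l ih =>
    rw [List.nodup_cons] at hl
    have hprodmono : ∏ u ∈ F.filter (fun u => u ∈ l), Th N J m D l u ≤
        ∏ u ∈ F.filter (fun u => u ∈ l), Th N J m D (w :: l) u :=
      prod_le_prod (fun v _ => Th_nonneg hN0 hD J m l v) fun v _ => Th_mono hN0 hD J m w l v
    by_cases hg : good N D w
    · have hU' : ∀ x ∈ l, x ∉ U := fun x hx => hU x (by simp [hx])
      simp only [EE, if_pos hg]
      by_cases hw : w ∈ F
      · have h0 : ¬ ∀ u ∈ F, u ∈ l ∨ u ∈ U := by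
          intro h
          rcases h w hw with h | h
          · exact hl.1 h
          · exact hU w (by simp) h
        calc _ ≤ stepE N D w (fun _ => (0 : ℝ)) := by
              refine stepE_mono fun β c hc => ?_
              have := ih hl.2 (upd w β c D) (fun v => upd_in hN hg hD β hc v) U hU'
              rw [if_neg h0, zero_mul] at this
              exact this
          _ = 0 := stepE_const 0
          _ ≤ _ := by
              apply mul_nonneg
              · split_ifs <;> norm_num
              · exact prod_nonneg fun v _ => Th_nonneg hN0 hD J m _ v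
      · have hfil : F.filter (fun u => u ∈ w :: l) = F.filter (fun u => u ∈ l) := by
          apply filter_congr
          intro x hx
          have : x ≠ w := fun e => hw (e ▸ hx)
          simp [this]
        have hind : (∀ u ∈ F, u ∈ w :: l ∨ u ∈ U) ↔ ∀ u ∈ F, u ∈ l ∨ u ∈ U := by
          refine forall₂_congr fun x hx => ?_
          have : x ≠ w := fun e => hw (e ▸ hx)
          simp [this]
        rw [hfil]
        simp only [hind]
        set I : ℝ := if ∀ u ∈ F, u ∈ l ∨ u ∈ U then 1 else 0 with hI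
        have hI0 : 0 ≤ I := by rw [hI]; split_ifs <;> norm_num
        refine le_trans (stepE_mono (F' := fun D' => I *
          ∏ u ∈ F.filter (fun u => u ∈ l), Th N J m D' l u) fun β c hc => ?_) ?_
        · exact ih hl.2 (upd w β c D) (fun v => upd_in hN hg hD β hc v) U hU'
        rw [stepE_mul_left]
        refine mul_le_mul_of_nonneg_left ?_ hI0
        by_cases hex : ∃ u₀ ∈ F.filter (fun u => u ∈ l), hammingDist u₀ w ≤ 2
        · obtain ⟨u₀, hu₀, hd₀⟩ := hex
          have hu₀F := (mem_filter.mp hu₀).1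
          have hu₀w : u₀ ≠ w := fun e => hw (e ▸ hu₀F)
          have hrest : ∀ (β : Q n) (c : ℤ),
              ∏ u ∈ F.filter (fun u => u ∈ l), Th N J m (upd w β c D) l u =
              (∏ u ∈ (F.filter (fun u => u ∈ l)).erase u₀, Th N J m D l u) *
                Th N J m (upd w β c D) l u₀ := by
            intro β c
            rw [← prod_erase_mul _ _ hu₀]
            have hpr : ∏ u ∈ (F.filter (fun u => u ∈ l)).erase u₀, Th N J m (upd w β c D) l u =
                ∏ u ∈ (F.filter (fun u => u ∈ l)).erase u₀, Th N J m D l u := by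
              refine prod_congr rfl fun u hu => ?_
              rw [mem_erase, mem_filter] at hu
              apply Th_far
              have h5 := hF u₀ hu₀F u hu.2.1 hu.1.symm
              have htri := hammingDist_triangle u₀ w u
              rw [hammingDist_comm w u] at htri
              omega
            rw [hpr]
          refine le_trans (stepE_mono (F' := fun D' =>
            (∏ u ∈ (F.filter (fun u => u ∈ l)).erase u₀, Th N J m D l u) *
              Th N J m D' l u₀) fun β c _ => le_of_eq (hrest β c)) ?_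
          rw [stepE_mul_left]
          rw [← prod_erase_mul (F.filter (fun u => u ∈ l)) (fun u => Th N J m D (w :: l) u) hu₀]
          apply mul_le_mul
          · exact prod_le_prod (fun v _ => Th_nonneg hN0 hD J m l v)
              fun v _ => Th_mono hN0 hD J m w l v
          · exact Th_step hN hD hg J m l hu₀w
          · calc (0 : ℝ) = stepE N D w (fun _ => (0 : ℝ)) := (stepE_const 0).symm
              _ ≤ _ := stepE_mono fun β c hc =>
                  Th_nonneg hN0 (fun v => upd_in hN hg hD β hc v) J m l u₀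
          · exact prod_nonneg fun v _ => Th_nonneg hN0 hD J m _ v
        · push Not at hex
          refine le_trans (stepE_mono (F' := fun _ =>
            ∏ u ∈ F.filter (fun u => u ∈ l), Th N J m D l u) fun β c _ => le_of_eq ?_) ?_
          · refine prod_congr rfl fun u hu => ?_
            exact Th_far (hex u hu) β c
          · rw [stepE_const]; exact hprodmono
    · simp only [EE, if_neg hg]
      have hU' : ∀ x ∈ l, x ∉ insert w U := by
        intro x hx
        rw [mem_insert, not_or]
        exact ⟨fun e => hl.1 (e ▸ hx), hU x (by simp [hx])⟩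
      refine le_trans (ih hl.2 D hD (insert w U) hU') ?_
      have hind : (∀ u ∈ F, u ∈ l ∨ u ∈ insert w U) ↔ (∀ u ∈ F, u ∈ w :: l ∨ u ∈ U) := by
        refine forall₂_congr fun x hx => ?_
        rw [mem_insert, List.mem_cons]
        tauto
      simp only [hind]
      refine mul_le_mul_of_nonneg_left ?_ (by split_ifs <;> norm_num)
      by_cases hw : w ∈ F
      · have hfil : F.filter (fun u => u ∈ w :: l) = insert w (F.filter (fun u => u ∈ l)) := by
          ext x
          simp only [mem_filter, List.mem_cons, mem_insert]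
          constructor
          · rintro ⟨h1, h2 | h2⟩
            · left; exact h2
            · right; exact ⟨h1, h2⟩
          · rintro (h | ⟨h1, h2⟩)
            · subst h; exact ⟨hw, Or.inl rfl⟩
            · exact ⟨h1, Or.inr h2⟩
        rw [hfil, prod_insert (by simp [hl.1])]
        calc ∏ u ∈ F.filter (fun u => u ∈ l), Th N J m D l u
            ≤ 1 * ∏ u ∈ F.filter (fun u => u ∈ l), Th N J m D (w :: l) u := by
              rw [one_mul]; exact hprodmono
          _ ≤ _ := by
              apply mul_le_mul_of_nonneg_right (hbad D (w :: l) w hD hg)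
              exact prod_nonneg fun v _ => Th_nonneg hN0 hD J m _ v
      · have hfil : F.filter (fun u => u ∈ w :: l) = F.filter (fun u => u ∈ l) := by
          apply filter_congr
          intro x hx
          have : x ≠ w := fun e => hw (e ▸ hx)
          simp [this]
        rw [hfil]
        exact hprodmono

end Pool.Agent.Lib.MP_3166d6_co
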