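import Mathlib

/-! One dimensional estimates for the barrier potential `G N x = (N / (N - x^2))^60`. -/

namespace Pool.Agent.Lib.MP_3166d6_co

/-- the barrier potential -/
noncomputable def G (N : ℝ) (x : ℤ) : ℝ := (N / (N - (x : ℝ) ^ 2)) ^ 60

/-- its logarithmic derivative -/
noncomputable def del (N : ℝ) (x : ℤ) : ℝ := 120 * x / (N - (x : ℝ) ^ 2)

/-- relative second difference of the potential -/
noncomputable def aa (N : ℝ) (x : ℤ) : ℝ := (G N (x + 1) + G N (x - 1)) / (2 * G N x) - 1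

/-- relative first difference of the potential -/
noncomputable def dd (N : ℝ) (x : ℤ) : ℝ := (G N (x + 1) - G N (x - 1)) / (2 * G N x)

lemma G_pos {N : ℝ} {x : ℤ} (hN : 0 < N) (hx : (x : ℝ) ^ 2 < N) : 0 < G N x := by
  unfold G
  have : 0 < N - (x : ℝ) ^ 2 := by linarith
  positivity

lemma one_le_G {N : ℝ} {x : ℤ} (hx : (x : ℝ) ^ 2 < N) : 1 ≤ G N x := by
  unfold G
  have h : 0 < N - (x : ℝ) ^ 2 := by linarith
  apply one_le_pow₀
  rw [le_div_iff₀ h]
  nlinarith [sq_nonneg (x : ℝ)]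

/-- `(1 - e)^{-60}` -/
lemma pow_bounds {e : ℝ} (h1 : -(1 / 8) ≤ 60 * e) (h2 : 60 * e ≤ 1 / 8) :
    1 + 60 * e ≤ (1 / (1 - e)) ^ 60 ∧ (1 / (1 - e)) ^ 60 ≤ 1 + 60 * e + 8 / 7 * (60 * e) ^ 2 := by
  have hpos : 0 < 1 - e := by linarith
  have hpow : 0 < (1 - e) ^ 60 := by positivity
  constructor
  · have hb : 1 + (60 : ℕ) * e ≤ (1 + e) ^ 60 := one_add_mul_le_pow (by linarith) 60
    have h3 : 1 + e ≤ 1 / (1 - e) := by
      rw [le_div_iff₀ hpos]; nlinarith [sq_nonneg e]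
    have h4 : (1 + e) ^ 60 ≤ (1 / (1 - e)) ^ 60 := pow_le_pow_left₀ (by linarith) h3 60
    push_cast at hb
    linarith
  · have hb : 1 + (60 : ℕ) * (-e) ≤ (1 + (-e)) ^ 60 := one_add_mul_le_pow (by linarith) 60
    push_cast at hb
    rw [div_pow, one_pow, div_le_iff₀ hpow]
    have h5 : 1 - 60 * e ≤ (1 - e) ^ 60 := by
      have : (1 + -e) = 1 - e := by ring
      rw [this] at hb; linarith
    have h6 : 0 < 1 + 60 * e + 8 / 7 * (60 * e) ^ 2 := by nlinarith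
    calc (1 : ℝ) ≤ (1 + 60 * e + 8 / 7 * (60 * e) ^ 2) * (1 - 60 * e) := by
          nlinarith [mul_nonneg (sq_nonneg (60 * e)) (by linarith : (0 : ℝ) ≤ 1 / 8 - 60 * e)]
      _ ≤ _ := by
          apply mul_le_mul_of_nonneg_left h5 h6.le

lemma r_bounds {N : ℝ} {x : ℤ} (hN : 6009 ≤ N) (hx : (x : ℝ) ^ 2 < N) (hd : |del N x| ≤ 1 / 16) :
    1920 * |(x : ℝ)| ≤ N - (x : ℝ) ^ 2 ∧ 6000 ≤ N - (x : ℝ) ^ 2 := by
  have hr : 0 < N - (x : ℝ) ^ 2 := by linarith
  have h1 : 1920 * |(x : ℝ)| ≤ N - (x : ℝ) ^ 2 := by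
    unfold del at hd
    rw [abs_div, abs_mul, abs_of_pos hr, div_le_iff₀ hr, abs_of_pos (by norm_num : (0 : ℝ) < 120)]
      at hd
    linarith
  refine ⟨h1, ?_⟩
  rcases le_total |(x : ℝ)| 3 with h | h
  · have : (x : ℝ) ^ 2 ≤ 9 := by
      rw [← sq_abs]; nlinarith [abs_nonneg (x : ℝ)]
    linarith
  · have h4 : (3 : ℝ) < |(x : ℝ)| ∨ |(x : ℝ)| = 3 := by
      rcases lt_or_eq_of_le h with h | h
      · left; exact h
      · right; exact h.symm
    rcases h4 with h4 | h4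
    · have h5 : (4 : ℝ) ≤ |(x : ℝ)| := by
        have h6 : (3 : ℤ) < |x| := by exact_mod_cast h4
        have h7 : (4 : ℤ) ≤ |x| := by omega
        exact_mod_cast h7
      linarith
    · have : (x : ℝ) ^ 2 = 9 := by
        rw [← sq_abs, h4]; norm_num
      linarith

lemma step_in {N : ℝ} {x : ℤ} (hN : 6009 ≤ N) (hx : (x : ℝ) ^ 2 < N) (hd : |del N x| ≤ 1 / 16) :
    ((x + 1 : ℤ) : ℝ) ^ 2 < N ∧ ((x - 1 : ℤ) : ℝ) ^ 2 < N := by
  obtain ⟨h1, h2⟩ := r_bounds hN hx hd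
  have h3 := le_abs_self (x : ℝ)
  have h4 := neg_abs_le (x : ℝ)
  push_cast
  constructor <;> nlinarith

/-- the main one dimensional estimate -/
lemma ratio_bounds {N : ℝ} {x : ℤ} (hN : 6009 ≤ N) (hx : (x : ℝ) ^ 2 < N)
    (hd : |del N x| ≤ 1 / 16) :
    0 ≤ aa N x ∧ aa N x ≤ 5 / 4 * (60 / (N - (x : ℝ) ^ 2)) + 6 / 5 * del N x ^ 2 ∧
    |dd N x - del N x| ≤ |del N x| / 10 ∧ 60 / (N - (x : ℝ) ^ 2) ≤ 1 / 100 := by
  obtain ⟨h1, h2⟩ := r_bounds hN hx hd
  obtain ⟨h3, h4⟩ := step_in hN hx hd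
  have hGpos := G_pos (by linarith) hx
  set r := N - (x : ℝ) ^ 2 with hr
  have hrpos : 0 < r := by linarith
  set p := 60 / r with hp
  set δ := del N x with hδ
  have hδeq : δ = 120 * x / r := rfl
  have hp0 : 0 < p := by positivity
  have hp1 : p ≤ 1 / 100 := by
    rw [hp, div_le_iff₀ hrpos]; linarith
  have hdab := abs_le.mp hd
  -- ratios
  have hRp : G N (x + 1) / G N x = (1 / (1 - (2 * x + 1) / r)) ^ 60 := by
    unfold G
    rw [← div_pow]
    congr 1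
    have e1 : N - ((x + 1 : ℤ) : ℝ) ^ 2 = r - (2 * x + 1) := by push_cast; rw [hr]; ring
    have e2 : 0 < r - (2 * x + 1) := by rw [← e1]; linarith
    rw [e1, ← hr]
    have hN0 : N ≠ 0 := by linarith
    have e3 : 1 - (2 * (x : ℝ) + 1) / r ≠ 0 := by
      rw [ne_eq, sub_eq_zero, eq_div_iff hrpos.ne']; intro h; linarith
    field_simp
  have hRm : G N (x - 1) / G N x = (1 / (1 - (-2 * x + 1) / r)) ^ 60 := by
    unfold G
    rw [← div_pow]
    congr 1
    have e1 : N - ((x - 1 : ℤ) : ℝ) ^ 2 = r - (-2 * x + 1) := by push_cast; rw [hr]; ring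
    have e2 : 0 < r - (-2 * x + 1) := by rw [← e1]; linarith
    rw [e1, ← hr]
    have hN0 : N ≠ 0 := by linarith
    have e3 : 1 - (-2 * (x : ℝ) + 1) / r ≠ 0 := by
      rw [ne_eq, sub_eq_zero, eq_div_iff hrpos.ne']; intro h; linarith
    field_simp
  have tp : 60 * ((2 * (x : ℝ) + 1) / r) = δ + p := by rw [hδeq, hp]; ring
  have tm : 60 * ((-2 * (x : ℝ) + 1) / r) = -δ + p := by rw [hδeq, hp]; ring
  obtain ⟨p1, p2⟩ := pow_bounds (e := (2 * (x : ℝ) + 1) / r) (by rw [tp]; linarith)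
    (by rw [tp]; linarith)
  obtain ⟨m1, m2⟩ := pow_bounds (e := (-2 * (x : ℝ) + 1) / r) (by rw [tm]; linarith)
    (by rw [tm]; linarith)
  rw [tp, ← hRp] at p1 p2
  rw [tm, ← hRm] at m1 m2
  have ha : aa N x = (G N (x + 1) / G N x + G N (x - 1) / G N x) / 2 - 1 := by
    unfold aa; field_simp
  have hdd : dd N x = (G N (x + 1) / G N x - G N (x - 1) / G N x) / 2 := by
    unfold dd; field_simp
  have hsymm : x = 0 → G N (x + 1) / G N x = G N (x - 1) / G N x := by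
    intro h0
    have h01 : ((x + 1 : ℤ) : ℝ) ^ 2 = ((x - 1 : ℤ) : ℝ) ^ 2 := by
      rw [h0]; push_cast; ring
    have : G N (x + 1) = G N (x - 1) := by
      unfold G; rw [h01]
    rw [this]
  clear hRp hRm
  set A := G N (x + 1) / G N x
  set B := G N (x - 1) / G N x
  refine ⟨by rw [ha]; linarith, ?_, ?_, hp1⟩
  · rw [ha]; nlinarith
  · rw [hdd]
    by_cases hx0 : x = 0
    · have hAB : A = B := hsymm hx0
      have hδ0 : δ = 0 := by rw [hδeq, hx0]; simp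
      rw [hAB, hδ0]; simp
    · have habs : 1 ≤ |(x : ℝ)| := by
        have : 1 ≤ |x| := Int.one_le_abs hx0
        exact_mod_cast this
      have hδabs : |δ| = 2 * |(x : ℝ)| * p := by
        rw [hδeq, hp, abs_div, abs_mul, abs_of_pos hrpos, abs_of_pos (by norm_num : (0 : ℝ) < 120)]
        ring
      have hδp : 2 * p ≤ |δ| := by rw [hδabs]; nlinarith
      have hsq : |δ| ^ 2 = δ ^ 2 := sq_abs δ
      have hδ16 : |δ| ≤ 1 / 16 := hd
      have hle := le_abs_self δ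
      have hnle := neg_abs_le δ
      rw [abs_le]
      constructor
      · have : (-δ + p) ^ 2 ≤ (3 / 2 * |δ|) ^ 2 := by
          apply sq_le_sq' <;> linarith
        nlinarith
      · have : (δ + p) ^ 2 ≤ (3 / 2 * |δ|) ^ 2 := by
          apply sq_le_sq' <;> linarith
        nlinarith

end Pool.Agent.Lib.MP_3166d6_co
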