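import Pool.Agent.Lib.MP_3166d6_co.Basics
import Pool.Agent.Lib.MP_3166d6_co.Average
import Pool.Agent.Lib.MP_3166d6_co.Ratio

/-! One step of the self-balancing walk. -/

open Finset

namespace Pool.Agent.Lib.MP_3166d6_co

variable {n : ℕ}

/-- update of the running sums when vertex `u` gets colour `c`, where `β i` says whether `u`
belongs to the set of its `i`-th neighbour -/
def upd (u : Q n) (β : Q n) (c : ℤ) (D : Q n → ℤ) (v : Q n) : ℤ :=
  D v + ∑ i, if v = fl u i ∧ β i = true then c else 0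

lemma upd_fl (u : Q n) (β : Q n) (c : ℤ) (D : Q n → ℤ) (i : Fin n) :
    upd u β c D (fl u i) = D (fl u i) + if β i = true then c else 0 := by
  unfold upd
  congr 1
  rw [sum_eq_single i]
  · simp
  · intro j _ hj
    have : fl u i ≠ fl u j := fun h => hj (fl_injective u h).symm
    simp [this]
  · intro h; exact absurd (mem_univ _) h

lemma upd_of_notMem (u : Q n) (β : Q n) (c : ℤ) (D : Q n → ℤ) {v : Q n} (hv : v ∉ nb u) :
    upd u β c D v = D v := by
  unfold upd
  rw [sum_eq_zero, add_zero]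
  intro i _
  rw [if_neg]
  rintro ⟨rfl, _⟩
  exact hv (fl_mem_nb u i)

/-- the local drifts around `u` -/
noncomputable def dl (N : ℝ) (D : Q n → ℤ) (u : Q n) (i : Fin n) : ℝ := del N (D (fl u i))

/-- `u` is good: the drifts around `u` are small -/
def good (N : ℝ) (D : Q n → ℤ) (u : Q n) : Prop := ∑ i, dl N D u i ^ 2 ≤ 1 / 256

/-- the average over the random bits and the random colour -/
noncomputable def stepE (N : ℝ) (D : Q n → ℤ) (u : Q n) (F : (Q n → ℤ) → ℝ) : ℝ :=
  av fun β => (1 - cl (4 * ys univ (dl N D u) β)) / 2 * F (upd u β 1 D) +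
    (1 + cl (4 * ys univ (dl N D u) β)) / 2 * F (upd u β (-1) D)

lemma wp_nonneg (z : ℝ) : 0 ≤ (1 - cl z) / 2 := by
  have := cl_le_one z; linarith

lemma wm_nonneg (z : ℝ) : 0 ≤ (1 + cl z) / 2 := by
  have := neg_one_le_cl z; linarith

lemma stepE_mono {N : ℝ} {D : Q n → ℤ} {u : Q n} {F F' : (Q n → ℤ) → ℝ}
    (h : ∀ β c, (c = 1 ∨ c = -1) → F (upd u β c D) ≤ F' (upd u β c D)) :
    stepE N D u F ≤ stepE N D u F' := by
  unfold stepE
  refine av_mono fun β => add_le_add ?_ ?_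
  · exact mul_le_mul_of_nonneg_left (h β 1 (Or.inl rfl)) (wp_nonneg _)
  · exact mul_le_mul_of_nonneg_left (h β (-1) (Or.inr rfl)) (wm_nonneg _)

lemma stepE_const {N : ℝ} {D : Q n → ℤ} {u : Q n} (c : ℝ) : stepE N D u (fun _ => c) = c := by
  unfold stepE
  have : (fun β : Fin n → Bool => (1 - cl (4 * ys univ (dl N D u) β)) / 2 * c +
    (1 + cl (4 * ys univ (dl N D u) β)) / 2 * c) = fun _ => c := by
    ext β; ring
  rw [this, av_const]

lemma stepE_mul_left {N : ℝ} {D : Q n → ℤ} {u : Q n} (c : ℝ) (F : (Q n → ℤ) → ℝ) :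
    stepE N D u (fun D' => c * F D') = c * stepE N D u F := by
  unfold stepE
  rw [← av_mul_left]
  congr 1
  ext β; ring

lemma stepE_add {N : ℝ} {D : Q n → ℤ} {u : Q n} (F F' : (Q n → ℤ) → ℝ) :
    stepE N D u (fun D' => F D' + F' D') = stepE N D u F + stepE N D u F' := by
  unfold stepE
  rw [← av_add]
  congr 1
  ext β; ring

lemma stepE_sum {N : ℝ} {D : Q n → ℤ} {u : Q n} {ι : Type*} (s : Finset ι)
    (F : ι → (Q n → ℤ) → ℝ) :
    stepE N D u (fun D' => ∑ k ∈ s, F k D') = ∑ k ∈ s, stepE N D u (F k) := by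
  classical
  induction s using Finset.induction_on with
  | empty => simp [stepE_const]
  | insert a s ha ih =>
    simp only [sum_insert ha]
    rw [stepE_add, ih]

lemma abs_dl_le {N : ℝ} {D : Q n → ℤ} {u : Q n} (hg : good N D u) (i : Fin n) :
    |del N (D (fl u i))| ≤ 1 / 16 := by
  unfold good at hg
  have h1 : dl N D u i ^ 2 ≤ 1 / 256 :=
    le_trans (single_le_sum (f := fun i => dl N D u i ^ 2) (fun j _ => sq_nonneg _) (mem_univ i)) hg
  have h2 : |dl N D u i| ^ 2 ≤ (1 / 16 : ℝ) ^ 2 := by rw [sq_abs]; linarith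
  exact abs_le_of_sq_le_sq' (by rwa [sq_abs] at h2) (by norm_num) |> abs_le.mpr

/-- single variable inequality -/
lemma single_ineq {a d x p C : ℝ} (ha : a ≤ 5 / 4 * p + 6 / 5 * x ^ 2)
    (hd : |d - x| ≤ |x| / 10) (hC : 3 / 4 * (4 * x) ^ 2 ≤ 4 * x * C) (hC2 : |C| ≤ |4 * x|)
    (hp : 0 ≤ p) :
    a - d * C ≤ 13 / 10 * p - 17 / 20 * x ^ 2 := by
  have h1 : |(d - x) * C| ≤ |x| / 10 * |4 * x| := by
    rw [abs_mul]; exact mul_le_mul hd hC2 (abs_nonneg _) (by positivity)
  have h2 : |x| / 10 * |4 * x| = 4 / 10 * x ^ 2 := by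
    rw [abs_mul, abs_of_pos (by norm_num : (0 : ℝ) < 4), ← sq_abs x]; ring
  have h3 := neg_abs_le ((d - x) * C)
  have h4 : d * C = x * C + (d - x) * C := by ring
  nlinarith [sq_nonneg x]

lemma piece {x y dx dy C : ℝ} (hx : |dx - x| ≤ |x| / 10) (hy : |dy - y| ≤ |y| / 10)
    (hC : 3 / 4 * (4 * (x + y)) ^ 2 ≤ 4 * (x + y) * C) (hC2 : |C| ≤ |4 * (x + y)|) :
    3 * (x + y) ^ 2 - 4 / 10 * ((|x| + |y|) * |x + y|) ≤ (dx + dy) * C := by
  have h1 : |((dx - x) + (dy - y)) * C| ≤ (|x| / 10 + |y| / 10) * |4 * (x + y)| := by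
    rw [abs_mul]
    exact mul_le_mul (le_trans (abs_add_le _ _) (add_le_add hx hy)) hC2 (abs_nonneg _)
      (by positivity)
  rw [abs_mul 4, abs_of_pos (by norm_num : (0 : ℝ) < 4)] at h1
  have h3 := neg_abs_le (((dx - x) + (dy - y)) * C)
  nlinarith

lemma abs_combo (x y : ℝ) : (|x| + |y|) * |x + y| + (|x| + |y|) * |x - y| ≤
    5 / 2 * (x ^ 2 + y ^ 2) := by
  rcases abs_cases x with ⟨h1, h1'⟩ | ⟨h1, h1'⟩ <;>
  rcases abs_cases y with ⟨h2, h2'⟩ | ⟨h2, h2'⟩ <;>
  rcases abs_cases (x + y) with ⟨h3, h3'⟩ | ⟨h3, h3'⟩ <;>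
  rcases abs_cases (x - y) with ⟨h4, h4'⟩ | ⟨h4, h4'⟩ <;>
  rw [h1, h2, h3, h4] <;>
  nlinarith [sq_nonneg (x - 2 * y), sq_nonneg (x + 2 * y), sq_nonneg (2 * x - y),
    sq_nonneg (2 * x + y), sq_nonneg x, sq_nonneg y]

lemma abs_le_scaled {d x : ℝ} (hd : |d - x| ≤ |x| / 10) : |d| ≤ 11 / 10 * |x| := by
  calc |d| = |(d - x) + x| := by ring_nf
    _ ≤ |d - x| + |x| := abs_add_le _ _
    _ ≤ _ := by linarith

lemma de_bound {d e x y : ℝ} (hd : |d| ≤ 11 / 10 * |x|) (he : |e| ≤ 11 / 10 * |y|) :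
    d * e ≤ 605 / 1000 * (x ^ 2 + y ^ 2) := by
  have h1 : d * e ≤ |d| * |e| := by rw [← abs_mul]; exact le_abs_self _
  have h2 : |d| * |e| ≤ (11 / 10 * |x|) * (11 / 10 * |y|) :=
    mul_le_mul hd he (abs_nonneg _) (by positivity)
  have h3 : 0 ≤ (|x| - |y|) ^ 2 := sq_nonneg _
  have h4 : (|x| - |y|) ^ 2 = x ^ 2 + y ^ 2 - 2 * (|x| * |y|) := by
    rw [← sq_abs x, ← sq_abs y]; ring
  linarith

lemma cross_bound {a b d e x y C : ℝ} (ha0 : 0 ≤ a) (hb0 : 0 ≤ b) (ha1 : a ≤ 172 / 10000)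
    (hb1 : b ≤ 172 / 10000) (hd : |d| ≤ 11 / 10 * |x|) (he : |e| ≤ 11 / 10 * |y|)
    (hC2 : |C| ≤ |4 * (x + y)|) :
    -((a * e + b * d) * C) ≤ 152 / 1000 * (x ^ 2 + y ^ 2) := by
  have h1 : -((a * e + b * d) * C) ≤ |a * e + b * d| * |C| := by
    rw [← abs_mul]; exact neg_le_abs _
  have h2 : |a * e + b * d| ≤ 172 / 10000 * (11 / 10) * (|x| + |y|) := by
    refine le_trans (abs_add_le _ _) ?_
    rw [abs_mul, abs_mul, abs_of_nonneg ha0, abs_of_nonneg hb0]
    have h3 : a * |e| ≤ 172 / 10000 * (11 / 10 * |y|) :=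
      mul_le_mul ha1 he (abs_nonneg _) (by norm_num)
    have h4 : b * |d| ≤ 172 / 10000 * (11 / 10 * |x|) :=
      mul_le_mul hb1 hd (abs_nonneg _) (by norm_num)
    linarith
  have h5 : |C| ≤ 4 * (|x| + |y|) := by
    refine le_trans hC2 ?_
    rw [abs_mul, abs_of_pos (by norm_num : (0 : ℝ) < 4)]
    have := abs_add_le x y
    linarith
  have h6 : |a * e + b * d| * |C| ≤
      (172 / 10000 * (11 / 10) * (|x| + |y|)) * (4 * (|x| + |y|)) :=
    mul_le_mul h2 h5 (abs_nonneg _) (by positivity)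
  have h7 : (|x| + |y|) ^ 2 ≤ 2 * (x ^ 2 + y ^ 2) := by
    have h3 : 0 ≤ (|x| - |y|) ^ 2 := sq_nonneg _
    have h4 : (|x| - |y|) ^ 2 = x ^ 2 + y ^ 2 - 2 * (|x| * |y|) := by
      rw [← sq_abs x, ← sq_abs y]; ring
    have h8 : (|x| + |y|) ^ 2 = x ^ 2 + y ^ 2 + 2 * (|x| * |y|) := by
      rw [← sq_abs x, ← sq_abs y]; ring
    linarith
  have h9 : (172 / 10000 * (11 / 10) * (|x| + |y|)) * (4 * (|x| + |y|)) =
      (172 / 10000 * (11 / 10) * 4) * (|x| + |y|) ^ 2 := by ring
  rw [h9] at h6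
  have h10 : 0 ≤ x ^ 2 + y ^ 2 := by positivity
  linarith

/-- two variable inequality -/
lemma pair_ineq {a b d e x y p q Cp Cm : ℝ} (ha0 : 0 ≤ a) (hb0 : 0 ≤ b)
    (ha : a ≤ 5 / 4 * p + 6 / 5 * x ^ 2) (hb : b ≤ 5 / 4 * q + 6 / 5 * y ^ 2)
    (hp : p ≤ 1 / 100) (hq : q ≤ 1 / 100) (hp0 : 0 ≤ p) (hq0 : 0 ≤ q)
    (hx : |x| ≤ 1 / 16) (hy : |y| ≤ 1 / 16)
    (hd : |d - x| ≤ |x| / 10) (he : |e - y| ≤ |y| / 10)
    (hC : 3 / 4 * (4 * (x + y)) ^ 2 ≤ 4 * (x + y) * Cp) (hC2 : |Cp| ≤ |4 * (x + y)|)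
    (hM : 3 / 4 * (4 * (x - y)) ^ 2 ≤ 4 * (x - y) * Cm) (hM2 : |Cm| ≤ |4 * (x - y)|) :
    2 * a + 2 * b + a * b + d * e - (d - e) * Cm - (d + e) * Cp - (a * e + b * d) * Cp ≤
      2 * (13 / 10 * p - 17 / 20 * x ^ 2) + 2 * (13 / 10 * q - 17 / 20 * y ^ 2) := by
  have p1 := piece hd he hC hC2
  have he' : |-e - -y| ≤ |-y| / 10 := by
    rw [abs_neg y]
    have : -e - -y = -(e - y) := by ring
    rw [this, abs_neg]; exact he
  have p2 := piece (x := x) (y := -y) (dx := d) (dy := -e) (C := Cm) hd he'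
    (by rw [← sub_eq_add_neg]; exact hM) (by rw [← sub_eq_add_neg]; exact hM2)
  rw [abs_neg y, ← sub_eq_add_neg, ← sub_eq_add_neg] at p2
  have p3 := abs_combo x y
  -- size bounds
  have hx2 : x ^ 2 ≤ 1 / 256 := by
    rw [← sq_abs]
    calc |x| ^ 2 ≤ (1 / 16 : ℝ) ^ 2 := pow_le_pow_left₀ (abs_nonneg _) hx 2
      _ = 1 / 256 := by norm_num
  have hy2 : y ^ 2 ≤ 1 / 256 := by
    rw [← sq_abs]
    calc |y| ^ 2 ≤ (1 / 16 : ℝ) ^ 2 := pow_le_pow_left₀ (abs_nonneg _) hy 2
      _ = 1 / 256 := by norm_num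
  have ha1 : a ≤ 172 / 10000 := by linarith
  have hb1 : b ≤ 172 / 10000 := by linarith
  have hd1 := abs_le_scaled hd
  have he1 := abs_le_scaled he
  have hde := de_bound hd1 he1
  have hcross := cross_bound ha0 hb0 ha1 hb1 hd1 he1 hC2
  have hab : a * b ≤ 86 / 10000 * (a + b) := by
    have h1 : a * b ≤ 172 / 10000 * b := mul_le_mul_of_nonneg_right ha1 hb0
    have h2 : a * b ≤ a * (172 / 10000) := mul_le_mul_of_nonneg_left hb1 ha0
    linarith
  have hsx : 0 ≤ x ^ 2 := sq_nonneg x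
  have hsy : 0 ≤ y ^ 2 := sq_nonneg y
  have e1 : (x + y) ^ 2 + (x - y) ^ 2 = 2 * (x ^ 2 + y ^ 2) := by ring
  have e2 : 4 / 10 * ((|x| + |y|) * |x + y|) + 4 / 10 * ((|x| + |y|) * |x - y|) ≤
      x ^ 2 + y ^ 2 := by linarith
  linarith

/-- the potential can only grow by the factor `1 + 60/N` -/
lemma final_ineq {N : ℝ} {x : ℤ} (hN : 0 < N) (hx : (x : ℝ) ^ 2 < N) :
    13 / 10 * (60 / (N - (x : ℝ) ^ 2)) - 17 / 20 * del N x ^ 2 ≤ 120 / N := by
  have hr : 0 < N - (x : ℝ) ^ 2 := by linarith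
  unfold del
  rw [div_pow, ← sub_nonneg]
  have : 120 / N - (13 / 10 * (60 / (N - (x : ℝ) ^ 2)) - 17 / 20 *
      ((120 * (x : ℝ)) ^ 2 / (N - (x : ℝ) ^ 2) ^ 2)) =
      (42 * N ^ 2 + 12078 * (x : ℝ) ^ 2 * N + 120 * ((x : ℝ) ^ 2) ^ 2) /
        (N * (N - (x : ℝ) ^ 2) ^ 2) := by
    field_simp
    ring
  rw [this]
  positivity

lemma G_succ {N : ℝ} {x : ℤ} (hG : 0 < G N x) : G N (x + 1) = G N x * (1 + aa N x + dd N x) := by
  unfold aa dd; field_simp; ring

lemma G_pred {N : ℝ} {x : ℤ} (hG : 0 < G N x) : G N (x - 1) = G N x * (1 + aa N x - dd N x) := by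
  unfold aa dd; field_simp; ring

lemma ys_split_one (s : Fin n → ℝ) (β : Fin n → Bool) (i : Fin n) (b : Bool) :
    ys univ s (Function.update β i b) = sg b * s i + ys (univ.erase i) s β := by
  unfold ys
  rw [← add_sum_erase univ _ (mem_univ i)]
  congr 1
  · simp
  · refine sum_congr rfl fun k hk => ?_
    rw [Function.update_of_ne (ne_of_mem_erase hk)]

lemma ys_erase_update (s : Fin n → ℝ) (β : Fin n → Bool) (i j : Fin n) (hij : j ≠ i) (b : Bool) :
    ys (univ.erase i) s (Function.update β j b) =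
      sg b * s j + ys ((univ.erase i).erase j) s β := by
  unfold ys
  rw [← add_sum_erase (univ.erase i) _ (mem_erase.mpr ⟨hij, mem_univ j⟩)]
  congr 1
  · simp
  · refine sum_congr rfl fun k hk => ?_
    rw [Function.update_of_ne (ne_of_mem_erase hk)]

lemma step_single {N : ℝ} {D : Q n → ℤ} {u : Q n} (hN : 6009 ≤ N) (hg : good N D u)
    (hD : ∀ v, ((D v : ℤ) : ℝ) ^ 2 < N) (i : Fin n) :
    stepE N D u (fun D' => G N (D' (fl u i))) ≤ (1 + 60 / N) * G N (D (fl u i)) := by
  have hNpos : 0 < N := by linarith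
  set s := dl N D u with hs
  set x := D (fl u i) with hx
  have hxN := hD (fl u i)
  rw [← hx] at hxN
  have hG := G_pos hNpos hxN
  obtain ⟨ha0, ha, hd, hp⟩ := ratio_bounds hN hxN (abs_dl_le hg i)
  have hsi : s i = del N x := rfl
  have key : stepE N D u (fun D' => G N (D' (fl u i))) =
      G N x * (1 + (aa N x - dd N x * CC (univ.erase i) s (4 * s i)) / 2) := by
    unfold stepE
    rw [av_split i]
    have : (fun β : Fin n → Bool =>
        ((1 - cl (4 * ys univ (dl N D u) (Function.update β i true))) / 2 *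
              G N (upd u (Function.update β i true) 1 D (fl u i)) +
            (1 + cl (4 * ys univ (dl N D u) (Function.update β i true))) / 2 *
              G N (upd u (Function.update β i true) (-1) D (fl u i)) +
          ((1 - cl (4 * ys univ (dl N D u) (Function.update β i false))) / 2 *
              G N (upd u (Function.update β i false) 1 D (fl u i)) +
            (1 + cl (4 * ys univ (dl N D u) (Function.update β i false))) / 2 *
              G N (upd u (Function.update β i false) (-1) D (fl u i)))) / 2) =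
        fun β => G N x * (1 + aa N x / 2) +
          (-(G N x * dd N x) / 2) * cl (4 * s i + 4 * ys (univ.erase i) s β) := by
      ext β
      simp only [upd_fl, Function.update_self, if_true, ys_split_one, ← hs, ← hx]
      rw [show x + -1 = x - 1 from rfl, G_succ hG, G_pred hG]
      have e1 : 4 * (sg true * s i + ys (univ.erase i) s β) =
          4 * s i + 4 * ys (univ.erase i) s β := by simp only [sg, if_true]; ring
      rw [e1]
      simp only [Bool.false_eq_true, if_false, add_zero]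
      ring
    rw [this, av_add, av_const, av_mul_left]
    unfold CC
    ring
  rw [key, mul_comm (1 + 60 / N)]
  apply mul_le_mul_of_nonneg_left _ hG.le
  have hsum : ∑ k ∈ univ.erase i, s k ^ 2 ≤ 1 / 256 :=
    le_trans (sum_le_sum_of_subset_of_nonneg (erase_subset _ _) (fun k _ _ => sq_nonneg _)) hg
  have habs := abs_dl_le hg i
  rw [← hx, ← hsi] at habs
  obtain ⟨c1, c2⟩ := CC_signed (univ.erase i) s hsum (x := 4 * s i)
    (by rw [abs_mul, abs_of_pos (by norm_num : (0 : ℝ) < 4)]; linarith)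
  rw [← hsi] at ha hd
  have hr : 0 < N - (x : ℝ) ^ 2 := by linarith
  have h1 := single_ineq ha hd c1 c2 (by positivity)
  have h2 := final_ineq hNpos hxN
  rw [← hsi] at h2
  have h3 : 60 / N = 120 / N / 2 := by ring
  rw [h3]
  linarith

lemma step_pair {N : ℝ} {D : Q n → ℤ} {u : Q n} (hN : 6009 ≤ N) (hg : good N D u)
    (hD : ∀ v, ((D v : ℤ) : ℝ) ^ 2 < N) (i j : Fin n) (hij : i ≠ j) :
    stepE N D u (fun D' => G N (D' (fl u i)) * G N (D' (fl u j))) ≤
      (1 + 60 / N) ^ 2 * (G N (D (fl u i)) * G N (D (fl u j))) := by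
  have hNpos : 0 < N := by linarith
  set s := dl N D u with hs
  set x := D (fl u i) with hx
  set y := D (fl u j) with hy
  have hxN := hD (fl u i)
  have hyN := hD (fl u j)
  rw [← hx] at hxN
  rw [← hy] at hyN
  have hG := G_pos hNpos hxN
  have hG' := G_pos hNpos hyN
  obtain ⟨ha0, ha, hd, hp⟩ := ratio_bounds hN hxN (abs_dl_le hg i)
  obtain ⟨hb0, hb, he, hq⟩ := ratio_bounds hN hyN (abs_dl_le hg j)
  have hsi : s i = del N x := rfl
  have hsj : s j = del N y := rfl
  set K := (univ.erase i).erase j with hK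
  set Cp := CC K s (4 * (s i + s j)) with hCp
  set Cm := CC K s (4 * (s i - s j)) with hCm
  set a := aa N x
  set b := aa N y
  set d := dd N x
  set e := dd N y
  have key : stepE N D u (fun D' => G N (D' (fl u i)) * G N (D' (fl u j))) =
      (G N x * G N y) * (1 + (2 * a + 2 * b + a * b + d * e - (d - e) * Cm - (d + e) * Cp -
        (a * e + b * d) * Cp) / 4) := by
    unfold stepE
    rw [av_split i, av_split j]
    have hupd : ∀ (β : Fin n → Bool) (b' b'' : Bool) (c : ℤ),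
        upd u (Function.update (Function.update β j b') i b'') c D (fl u i) =
          x + (if b'' = true then c else 0) := by
      intro β b' b'' c
      rw [upd_fl, Function.update_self, ← hx]
    have hupd' : ∀ (β : Fin n → Bool) (b' b'' : Bool) (c : ℤ),
        upd u (Function.update (Function.update β j b') i b'') c D (fl u j) =
          y + (if b' = true then c else 0) := by
      intro β b' b'' c
      rw [upd_fl, Function.update_of_ne hij.symm, Function.update_self, ← hy]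
    have hys : ∀ (β : Fin n → Bool) (b' b'' : Bool),
        4 * ys univ (dl N D u) (Function.update (Function.update β j b') i b'') =
          4 * (sg b'' * s i + sg b' * s j) + 4 * ys K s β := by
      intro β b' b''
      rw [ys_split_one, ys_erase_update _ _ _ _ hij.symm]
      ring
    simp only [hupd, hupd', hys]
    simp only [if_true, Bool.false_eq_true, if_false, add_zero]
    rw [show x + -1 = x - 1 from rfl, show y + -1 = y - 1 from rfl, G_succ hG, G_pred hG,
      G_succ hG', G_pred hG']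
    have e1 : ∀ β : Fin n → Bool, 4 * (sg true * s i + sg true * s j) + 4 * ys K s β =
        4 * (s i + s j) + 4 * ys K s β := by intro β; simp only [sg, if_true]; ring
    have e2 : ∀ β : Fin n → Bool, 4 * (sg true * s i + sg false * s j) + 4 * ys K s β =
        4 * (s i - s j) + 4 * ys K s β := by
      intro β; simp only [sg, if_true, Bool.false_eq_true, if_false]; ring
    have e3 : ∀ β : Fin n → Bool, 4 * (sg false * s i + sg true * s j) + 4 * ys K s β =
        -(4 * (s i - s j)) + 4 * ys K s β := by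
      intro β; simp only [sg, if_true, Bool.false_eq_true, if_false]; ring
    simp only [e1, e2, e3]
    have hfun : (fun β : Fin n → Bool =>
        (((1 - cl (4 * (s i + s j) + 4 * ys K s β)) / 2 *
                  (G N x * (1 + a + d) * (G N y * (1 + b + e))) +
                (1 + cl (4 * (s i + s j) + 4 * ys K s β)) / 2 *
                  (G N x * (1 + a - d) * (G N y * (1 + b - e))) +
              ((1 - cl (-(4 * (s i - s j)) + 4 * ys K s β)) / 2 * (G N x * (G N y * (1 + b + e))) +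
                (1 + cl (-(4 * (s i - s j)) + 4 * ys K s β)) / 2 *
                  (G N x * (G N y * (1 + b - e))))) / 2 +
            ((1 - cl (4 * (s i - s j) + 4 * ys K s β)) / 2 * (G N x * (1 + a + d) * G N y) +
                (1 + cl (4 * (s i - s j) + 4 * ys K s β)) / 2 * (G N x * (1 + a - d) * G N y) +
              ((1 - cl (4 * (sg false * s i + sg false * s j) + 4 * ys K s β)) / 2 *
                  (G N x * G N y) +
                (1 + cl (4 * (sg false * s i + sg false * s j) + 4 * ys K s β)) / 2 *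
                  (G N x * G N y))) / 2) / 2) =
        fun β => (G N x * G N y) * (1 + (2 * a + 2 * b + a * b + d * e) / 4) +
          ((-(G N x * G N y) * (d + e + a * e + b * d) / 4) *
              cl (4 * (s i + s j) + 4 * ys K s β) +
            ((-(G N x * G N y) * d / 4) * cl (4 * (s i - s j) + 4 * ys K s β) +
              (-(G N x * G N y) * e / 4) * cl (-(4 * (s i - s j)) + 4 * ys K s β))) := by
      ext β
      ring
    rw [hfun, av_add, av_const, av_add, av_mul_left, av_add, av_mul_left, av_mul_left]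
    have c1 : av (fun β => cl (4 * (s i + s j) + 4 * ys K s β)) = Cp := rfl
    have c2 : av (fun β => cl (4 * (s i - s j) + 4 * ys K s β)) = Cm := rfl
    have c3 : av (fun β => cl (-(4 * (s i - s j)) + 4 * ys K s β)) = -Cm := CC_neg K s _
    rw [c1, c2, c3]
    ring
  rw [key, mul_comm ((1 + 60 / N) ^ 2)]
  apply mul_le_mul_of_nonneg_left _ (mul_pos hG hG').le
  have hsum : ∑ k ∈ K, s k ^ 2 ≤ 1 / 256 :=
    le_trans (sum_le_sum_of_subset_of_nonneg (subset_univ _) (fun k _ _ => sq_nonneg _)) hg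
  have habs := abs_dl_le hg i
  have habs' := abs_dl_le hg j
  rw [← hx, ← hsi] at habs
  rw [← hy, ← hsj] at habs'
  obtain ⟨c1, c2⟩ := CC_signed K s hsum (x := 4 * (s i + s j))
    (by
      rw [abs_mul, abs_of_pos (by norm_num : (0 : ℝ) < 4)]
      have := abs_add_le (s i) (s j)
      linarith)
  obtain ⟨c3, c4⟩ := CC_signed K s hsum (x := 4 * (s i - s j))
    (by
      rw [abs_mul, abs_of_pos (by norm_num : (0 : ℝ) < 4)]
      have := abs_sub (s i) (s j)
      linarith)
  rw [← hsi] at ha hd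
  rw [← hsj] at hb he
  have hr : 0 < N - (x : ℝ) ^ 2 := by linarith
  have hr' : 0 < N - (y : ℝ) ^ 2 := by linarith
  have h1 := pair_ineq ha0 hb0 ha hb hp hq (by positivity) (by positivity) habs habs' hd he
    c1 c2 c3 c4
  have h2 := final_ineq hNpos hxN
  have h2' := final_ineq hNpos hyN
  rw [← hsi] at h2
  rw [← hsj] at h2'
  have h3 : (1 + 60 / N) ^ 2 = 1 + 120 / N + (60 / N) ^ 2 := by ring
  rw [h3]
  have h4 : 0 ≤ (60 / N) ^ 2 := sq_nonneg _
  linarith

/-- the combined statement for at most two neighbours of `u` -/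
lemma step_prod {N : ℝ} {D : Q n → ℤ} {u : Q n} (hN : 6009 ≤ N) (hg : good N D u)
    (hD : ∀ v, ((D v : ℤ) : ℝ) ^ 2 < N) (A : Finset (Q n)) (hA : A ⊆ nb u) (hc : A.card ≤ 2) :
    stepE N D u (fun D' => ∏ v ∈ A, G N (D' v)) ≤
      (1 + 60 / N) ^ A.card * ∏ v ∈ A, G N (D v) := by
  have hcases : A.card = 0 ∨ A.card = 1 ∨ A.card = 2 := by omega
  rcases hcases with h | h | h
  · rw [card_eq_zero] at h
    subst h
    simp [stepE_const]
  · obtain ⟨v, rfl⟩ := card_eq_one.mp h
    have hv := hA (mem_singleton_self v)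
    rw [mem_nb, hammingDist_eq_one] at hv
    obtain ⟨i, rfl⟩ := hv
    simpa using step_single hN hg hD i
  · obtain ⟨v, w, hvw, rfl⟩ := card_eq_two.mp h
    have hv := hA (mem_insert_self v _)
    have hw := hA (mem_insert_of_mem (mem_singleton_self w))
    rw [mem_nb, hammingDist_eq_one] at hv hw
    obtain ⟨i, rfl⟩ := hv
    obtain ⟨j, rfl⟩ := hw
    have hij : i ≠ j := fun e => hvw (by rw [e])
    simp only [prod_pair hvw, h]
    exact step_pair hN hg hD i j hij

lemma upd_in {N : ℝ} {D : Q n → ℤ} {u : Q n} (hN : 6009 ≤ N) (hg : good N D u)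
    (hD : ∀ v, ((D v : ℤ) : ℝ) ^ 2 < N) (β : Q n) {c : ℤ} (hc : c = 1 ∨ c = -1) (v : Q n) :
    ((upd u β c D v : ℤ) : ℝ) ^ 2 < N := by
  by_cases hv : v ∈ nb u
  · rw [mem_nb, hammingDist_eq_one] at hv
    obtain ⟨i, rfl⟩ := hv
    rw [upd_fl]
    split_ifs with hb
    · obtain ⟨h1, h2⟩ := step_in hN (hD (fl u i)) (abs_dl_le hg i)
      rcases hc with rfl | rfl
      · exact h1
      · exact h2
    · rw [add_zero]; exact hD _
  · rw [upd_of_notMem _ _ _ _ hv]; exact hD v

end Pool.Agent.Lib.MP_3166d6_co
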