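import Pool.Agent.Lib.MP_3166d6_co.Numeric
import Pool.Agent.Lib.MP_3166d6_co.Leftover

/-! The upper bound: most bit systems admit a signing with all sums `O(√n)`. -/

open Finset

namespace Pool.Agent.Lib.MP_3166d6_co

variable {n : ℕ}

/-- the family of subsets of neighbourhoods encoded by the bit system `T` -/
def Sof (T : Q n → Q n) (v : Q n) : Finset (Q n) :=
  (nb v).filter fun w => ∃ i, w = fl v i ∧ T w i = true

lemma sum_Sof (T : Q n → Q n) (v : Q n) (p : Q n → Prop) [DecidablePred p] (χ : Q n → ℤ) :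
    ∑ x ∈ (Sof T v).filter p, χ x =
      ∑ i, if p (fl v i) ∧ T (fl v i) i = true then χ (fl v i) else 0 := by
  rw [← sum_filter]
  have : (Sof T v).filter p =
      (univ.filter fun i => p (fl v i) ∧ T (fl v i) i = true).image (fl v) := by
    ext x
    simp only [Sof, mem_filter, mem_image, mem_univ, true_and]
    constructor
    · rintro ⟨⟨_, i, rfl, h2⟩, h3⟩
      exact ⟨i, ⟨h3, h2⟩, rfl⟩
    · rintro ⟨i, ⟨h1, h2⟩, rfl⟩
      exact ⟨⟨fl_mem_nb v i, i, rfl, h2⟩, h1⟩
  rw [this, sum_image (fun i _ j _ h => fl_injective v h)]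

/-- the number of far chains contained in `U` -/
noncomputable def fch (U : Finset (Q n)) : ℝ :=
  ∑ l ∈ chainS n n, if l.toFinset ⊆ U then 1 else 0

lemma fch_nonneg (U : Finset (Q n)) : 0 ≤ fch U :=
  sum_nonneg fun l _ => by split_ifs <;> norm_num

lemma numeric_final {J : ℕ} (hJ : n ≤ 8 ^ J) (hJ1 : 1 ≤ J) {p : ℝ}
    (hp0 : 0 ≤ p) (hp : p ≤ J * (1 / 2) ^ (53 * J)) :
    (2 ^ n * (n * (n + 1) ^ 6) ^ n : ℝ) * p ^ (n + 1) ≤ (1 / 2) ^ n := by
  have h1 : (J : ℝ) ≤ 2 ^ J := by exact_mod_cast Nat.lt_two_pow_self.le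
  have hp1 : p ≤ (1 / 2) ^ (52 * J) := by
    calc p ≤ J * (1 / 2) ^ (53 * J) := hp
      _ ≤ 2 ^ J * (1 / 2) ^ (53 * J) := mul_le_mul_of_nonneg_right h1 (by positivity)
      _ = (1 / 2) ^ (52 * J) := by
          have : 53 * J = J + 52 * J := by ring
          rw [this, pow_add, ← mul_assoc, ← mul_pow]; norm_num
  have hn8 : (n : ℝ) ≤ 2 ^ (3 * J) := by
    rw [pow_mul]; norm_num; exact_mod_cast hJ
  have hn1 : (n : ℝ) + 1 ≤ 2 ^ (3 * J + 1) := by
    have : (1 : ℝ) ≤ 2 ^ (3 * J) := one_le_pow₀ (by norm_num)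
    rw [pow_succ]; linarith
  have hn0 : (0 : ℝ) ≤ n := by positivity
  have hbase : 2 * (n * (n + 1 : ℝ) ^ 6) * p ≤ 1 / 2 := by
    calc 2 * (n * (n + 1 : ℝ) ^ 6) * p
        ≤ 2 * (2 ^ (3 * J) * (2 ^ (3 * J + 1)) ^ 6) * (1 / 2) ^ (52 * J) := by
          apply mul_le_mul _ hp1 hp0 (by positivity)
          apply mul_le_mul_of_nonneg_left _ (by norm_num)
          apply mul_le_mul hn8 _ (by positivity) (by positivity)
          exact pow_le_pow_left₀ (by positivity) hn1 6
      _ = 2 ^ (21 * J + 7) * (1 / 2) ^ (52 * J) := by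
          congr 1
          rw [← pow_mul, ← pow_add, ← pow_succ']
          congr 1
          ring
      _ ≤ 1 / 2 := by
          rw [div_pow, one_pow, mul_one_div, div_le_div_iff₀ (by positivity) (by norm_num),
            one_mul, ← pow_succ]
          apply pow_le_pow_right₀ (by norm_num)
          omega
  have hp2 : p ≤ 1 := by
    refine le_trans hp1 ?_
    exact pow_le_one₀ (by norm_num) (by norm_num)
  calc (2 ^ n * (n * (n + 1) ^ 6) ^ n : ℝ) * p ^ (n + 1)
      = (2 * (n * (n + 1 : ℝ) ^ 6) * p) ^ n * p := by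
        have e : p ^ (n + 1) = p ^ n * p := pow_succ p n
        rw [e, mul_pow (2 * (n * (n + 1 : ℝ) ^ 6)), mul_pow 2]; ring
    _ ≤ (1 / 2) ^ n * 1 := by
        apply mul_le_mul _ hp2 hp0 (by positivity)
        exact pow_le_pow_left₀ (by positivity) hbase n
    _ = (1 / 2) ^ n := mul_one _

theorem EE_fch (hn : 1 < n) :
    EE (NN n) fch (univ : Finset (Q n)).toList (fun _ => 0) ∅ ≤ (1 / 2) ^ n := by
  classical
  set J := Nat.clog 8 n with hJdef
  have hJ : n ≤ 8 ^ J := Nat.le_pow_clog (by norm_num) n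
  have hJ1 : 1 ≤ J := Nat.clog_pos (by norm_num) hn
  have hJ2 : 8 ^ (J - 1) < n := Nat.pow_pred_clog_lt_self (by norm_num) hn
  have hn' : (1 : ℝ) ≤ n := by exact_mod_cast hn.le
  have hN : 6009 ≤ NN n := by unfold NN; linarith
  have hN0 : 0 < NN n := by linarith
  set L := (univ : Finset (Q n)).toList with hL
  have hLn : L.Nodup := nodup_toList _
  set p : ℝ := J * (1 / 2) ^ (53 * J) with hp
  have hp0 : 0 ≤ p := by positivity
  have h1 : EE (NN n) fch L (fun _ => 0) ∅ =
      ∑ l ∈ chainS n n, EE (NN n) (fun U => if l.toFinset ⊆ U then (1 : ℝ) else 0) L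
        (fun _ => 0) ∅ := EE_sum (NN n) (chainS n n) _ L _ _
  rw [h1]
  have h2 : ∀ l ∈ chainS n n, EE (NN n) (fun U => if l.toFinset ⊆ U then (1 : ℝ) else 0) L
        (fun _ => 0) ∅ ≤ p ^ (n + 1) := by
    intro l hl
    have hpw := pairwise_of_mem_chainS hl
    have hlen := length_of_mem_chainS hl
    have hnd : l.Nodup := by
      refine hpw.imp fun {a b} hab e => ?_
      subst e
      rw [hammingDist_self] at hab; omega
    have hcard : l.toFinset.card = n + 1 := by
      rw [List.toFinset_card_of_nodup hnd, hlen]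
    have hfar : ∀ u ∈ l.toFinset, ∀ v ∈ l.toFinset, u ≠ v → 5 ≤ hammingDist u v := by
      intro u hu v hv huv
      rw [List.mem_toFinset] at hu hv
      have : Std.Symm (fun x y : Q n => 5 ≤ hammingDist x y) :=
        ⟨fun x y h => by rw [hammingDist_comm]; exact h⟩
      exact hpw.forall hu hv huv
    have h3 := EE_le hN J (mm n) (fun D l u hD hg => bad_star hJ hJ1 D l u hD hg) l.toFinset hfar L
      hLn (fun _ => 0) (fun v => by simpa using hN0) ∅ (by simp)
    have h4 : (if ∀ u ∈ l.toFinset, u ∈ L ∨ u ∈ (∅ : Finset (Q n)) then (1 : ℝ) else 0) = 1 := by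
      rw [if_pos]
      intro u _
      left
      rw [hL, mem_toList]; exact mem_univ u
    have h5 : l.toFinset.filter (fun u => u ∈ L) = l.toFinset := by
      apply filter_true_of_mem
      intro u _
      rw [hL, mem_toList]; exact mem_univ u
    rw [h4, one_mul, h5] at h3
    have h6 : ∏ u ∈ l.toFinset, Th (NN n) J (mm n) (fun _ => 0) L u ≤ ∏ u ∈ l.toFinset, p :=
      prod_le_prod (fun u _ => Th_nonneg hN0 (fun v => by simpa using hN0) J _ L u)
        fun u _ => initial_potential hJ2 L hLn u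
    rw [prod_const, hcard] at h6
    exact le_trans h3 h6
  refine le_trans (sum_le_sum h2) ?_
  rw [sum_const, nsmul_eq_mul]
  refine le_trans ?_ (numeric_final hJ hJ1 hp0 le_rfl)
  apply mul_le_mul_of_nonneg_right _ (by positivity)
  exact_mod_cast card_chainS (n := n) n

/-- if the bad event fails there is a good colouring -/
theorem exists_colouring (hn : 0 < n) {s : ℕ} (hs : 2 * (n + 1) ^ 5 ≤ 2 ^ s) (T : Q n → Q n)
    (hT : ¬ BadEv (NN n) fch (univ : Finset (Q n)).toList (fun _ => 0) ∅ T) :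
    ∃ χ : Q n → ℤ, (∀ v, χ v = 1 ∨ χ v = -1) ∧
      ∀ v, ((|∑ x ∈ Sof T v, χ x| : ℤ) : ℝ) ≤ √(NN n) + 4 * s := by
  classical
  unfold BadEv at hT
  push Not at hT
  obtain ⟨χ, hχ, hf⟩ := hT
  have hn' : (1 : ℝ) ≤ n := by exact_mod_cast hn
  have hN : 6009 ≤ NN n := by unfold NN; linarith
  have hN0 : 0 < NN n := by linarith
  set L := (univ : Finset (Q n)).toList with hL
  have hLmem : ∀ u, u ∈ L := fun u => by rw [hL, mem_toList]; exact mem_univ u
  have hLn : L.Nodup := nodup_toList _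
  set R := run (NN n) T χ L (fun _ => 0) ∅ with hR
  set U := R.2 with hU
  have hchain : ∀ l ∈ chainS n n, ∃ x ∈ l, x ∉ U := by
    intro l hl
    by_contra hcon
    push Not at hcon
    have h1 : (1 : ℝ) ≤ fch U := by
      unfold fch
      refine le_trans ?_ (single_le_sum (f := fun l : List (Q n) =>
        if l.toFinset ⊆ U then (1 : ℝ) else 0) (fun l _ => by split_ifs <;> norm_num) hl)
      rw [if_pos]
      intro x hx
      exact hcon x (by simpa using hx)
    linarith
  obtain ⟨χ', hχ', hsum'⟩ := leftover (Sof T) (fun v => filter_subset _ _) U s hs hchain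
  refine ⟨fun x => if x ∈ U then χ' x else χ x, fun v => ?_, fun v => ?_⟩
  · simp only
    split_ifs
    · exact hχ' v
    · exact hχ v
  · have h1 : ∑ x ∈ Sof T v, (if x ∈ U then χ' x else χ x) =
        ∑ x ∈ Sof T v ∩ U, χ' x + ∑ x ∈ (Sof T v).filter (fun x => x ∉ U), χ x := by
      rw [← sum_filter_add_sum_filter_not (Sof T v) (fun x => x ∈ U)]
      congr 1
      · rw [filter_mem_eq_inter]
        refine sum_congr rfl fun x hx => ?_
        rw [if_pos (mem_inter.mp hx).2]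
      · refine sum_congr rfl fun x hx => ?_
        rw [if_neg (mem_filter.mp hx).2]
    have h2 : ∑ x ∈ (Sof T v).filter (fun x => x ∉ U), χ x = R.1 v := by
      rw [sum_Sof, hR, run_value (NN n) T χ L hLn _ ∅ (by simp) v, zero_add]
      refine sum_congr rfl fun i _ => ?_
      have : fl v i ∈ L := hLmem _
      simp only [this, true_and]
      rfl
    have h3 := run_in hN T χ hχ L (fun _ => 0) ∅ (fun v => by simpa using hN0) v
    rw [← hR] at h3
    rw [h1, h2]
    have h4 : |((R.1 v : ℤ) : ℝ)| ≤ √(NN n) := Real.abs_le_sqrt h3.le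
    have h5 := hsum' v
    have h6 : ((|∑ x ∈ Sof T v ∩ U, χ' x + R.1 v| : ℤ) : ℝ) ≤
        ((|∑ x ∈ Sof T v ∩ U, χ' x| : ℤ) : ℝ) + |((R.1 v : ℤ) : ℝ)| := by
      have := abs_add_le (∑ x ∈ Sof T v ∩ U, χ' x) (R.1 v)
      exact_mod_cast this
    have h7 : ((|∑ x ∈ Sof T v ∩ U, χ' x| : ℤ) : ℝ) ≤ 4 * s := by exact_mod_cast h5
    linarith

open Classical in
/-- the number of bit systems without a good colouring -/
theorem card_no_colouring (hn : 1 < n) {s : ℕ} (hs : 2 * (n + 1) ^ 5 ≤ 2 ^ s) :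
    ((univ.filter fun T : Q n → Q n => ¬ ∃ χ : Q n → ℤ, (∀ v, χ v = 1 ∨ χ v = -1) ∧
      ∀ v, ((|∑ x ∈ Sof T v, χ x| : ℤ) : ℝ) ≤ √(NN n) + 4 * s).card : ℝ) ≤
      (1 / 2) ^ n * Fintype.card (Q n → Q n) := by
  have h1 := badEv_le (NN n) fch fch_nonneg (univ : Finset (Q n)).toList (nodup_toList _)
    (fun _ => 0) ∅
  have h2 := h1.trans (EE_fch hn)
  unfold avT at h2
  have hc : (0 : ℝ) < Fintype.card (Q n → Q n) := by
    exact_mod_cast Fintype.card_pos
  rw [div_le_iff₀ hc] at h2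
  refine le_trans ?_ h2
  rw [card_eq_sum_ones, sum_filter, Nat.cast_sum]
  refine sum_le_sum fun T _ => ?_
  by_cases h3 : ∃ χ : Q n → ℤ, (∀ v, χ v = 1 ∨ χ v = -1) ∧
      ∀ v, ((|∑ x ∈ Sof T v, χ x| : ℤ) : ℝ) ≤ √(NN n) + 4 * s
  · rw [if_neg (not_not.mpr h3), Nat.cast_zero]
    split_ifs <;> norm_num
  · rw [if_pos h3, Nat.cast_one]
    have h4 : BadEv (NN n) fch (univ : Finset (Q n)).toList (fun _ => 0) ∅ T := by
      by_contra h4
      exact h3 (exists_colouring (by omega) hs T h4)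
    rw [if_pos h4]

end Pool.Agent.Lib.MP_3166d6_co
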