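import Pool.Agent.Lib.MP_3166d6_co.Step

/-! The self-balancing walk and its comparison with an expectation recursion. -/

open Finset

namespace Pool.Agent.Lib.MP_3166d6_co

variable {n : ℕ}

open Classical in
/-- process the vertices of the list in order -/
noncomputable def run (N : ℝ) (T : Q n → Q n) (χ : Q n → ℤ) :
    List (Q n) → (Q n → ℤ) → Finset (Q n) → (Q n → ℤ) × Finset (Q n)
  | [], D, U => (D, U)
  | u :: l, D, U => if good N D u then run N T χ l (upd u (T u) (χ u) D) U
      else run N T χ l D (insert u U)

open Classical in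
/-- the expectation recursion -/
noncomputable def EE (N : ℝ) (f : Finset (Q n) → ℝ) :
    List (Q n) → (Q n → ℤ) → Finset (Q n) → ℝ
  | [], _, U => f U
  | u :: l, D, U => if good N D u then stepE N D u (fun D' => EE N f l D' U)
      else EE N f l D (insert u U)

lemma run_congr (N : ℝ) {T T' : Q n → Q n} {χ χ' : Q n → ℤ} (l : List (Q n))
    (h : ∀ w ∈ l, T w = T' w ∧ χ w = χ' w) (D : Q n → ℤ) (U : Finset (Q n)) :
    run N T χ l D U = run N T' χ' l D U := by
  induction l generalizing D U with
  | nil => rfl
  | cons u l ih =>
    have h1 := h u (by simp)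
    have h2 : ∀ w ∈ l, T w = T' w ∧ χ w = χ' w := fun w hw => h w (by simp [hw])
    simp only [run]
    rw [h1.1, h1.2, ih h2, ih h2]

/-- average over all bit systems -/
noncomputable def avT (g : (Q n → Q n) → ℝ) : ℝ := (∑ T, g T) / (Fintype.card (Q n → Q n) : ℝ)

lemma avT_mono {g g' : (Q n → Q n) → ℝ} (h : ∀ T, g T ≤ g' T) : avT g ≤ avT g' := by
  unfold avT
  gcongr with T _
  exact h T

lemma avT_const (c : ℝ) : avT (fun _ : Q n → Q n => c) = c := by
  unfold avT
  rw [sum_const, card_univ, nsmul_eq_mul]
  have : (Fintype.card (Q n → Q n) : ℝ) ≠ 0 := by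
    exact_mod_cast Fintype.card_ne_zero
  field_simp

lemma avT_split (u : Q n) (g : (Q n → Q n) → ℝ) :
    avT g = avT (fun T => av (fun β => g (Function.update T u β))) := by
  classical
  unfold avT av
  congr 1
  rw [← sum_div, eq_div_iff (by positivity), ← Fintype.sum_prod_type'
    (f := fun (T : Q n → Q n) (β : Fin n → Bool) => g (Function.update T u β))]
  let e : (Q n → Q n) × (Fin n → Bool) ≃ (Q n → Q n) × (Fin n → Bool) :=
    { toFun := fun p => (Function.update p.1 u p.2, p.1 u)
      invFun := fun p => (Function.update p.1 u p.2, p.1 u)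
      left_inv := fun p => by ext <;> simp
      right_inv := fun p => by ext <;> simp }
  have h1 : ∑ p : (Q n → Q n) × (Fin n → Bool), g (Function.update p.1 u p.2) =
      ∑ p : (Q n → Q n) × (Fin n → Bool), g p.1 :=
    Equiv.sum_comp e (fun p => g p.1)
  rw [h1, Fintype.sum_prod_type]
  simp only [sum_const, card_univ, nsmul_eq_mul]
  rw [← mul_sum]
  simp [mul_comm]

lemma avT_av_comm (h : (Q n → Q n) → (Fin n → Bool) → ℝ) :
    avT (fun T => av (fun β => h T β)) = av (fun β => avT (fun T => h T β)) := by
  unfold avT av
  rw [← sum_div, sum_comm, ← sum_div]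
  ring

lemma avT_add (f g : (Q n → Q n) → ℝ) : avT (fun T => f T + g T) = avT f + avT g := by
  simp [avT, sum_add_distrib, add_div]

lemma avT_mul_left (c : ℝ) (f : (Q n → Q n) → ℝ) : avT (fun T => c * f T) = c * avT f := by
  simp [avT, ← mul_sum, mul_div_assoc]

/-- every signing leads to a large value of `f` -/
def BadEv (N : ℝ) (f : Finset (Q n) → ℝ) (l : List (Q n)) (D : Q n → ℤ) (U : Finset (Q n))
    (T : Q n → Q n) : Prop :=
  ∀ χ : Q n → ℤ, (∀ v, χ v = 1 ∨ χ v = -1) → 1 ≤ f (run N T χ l D U).2

open Classical in
theorem badEv_le (N : ℝ) (f : Finset (Q n) → ℝ) (hf : ∀ U, 0 ≤ f U) (l : List (Q n))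
    (hl : l.Nodup) (D : Q n → ℤ) (U : Finset (Q n)) :
    avT (fun T => if BadEv N f l D U T then (1 : ℝ) else 0) ≤ EE N f l D U := by
  induction l generalizing D U with
  | nil =>
    have : ∀ T, BadEv N f [] D U T ↔ 1 ≤ f U := by
      intro T
      constructor
      · intro h; exact h (fun _ => 1) (fun _ => Or.inl rfl)
      · intro h χ _; exact h
    simp only [this, EE]
    rw [avT_const]
    split_ifs with h
    · exact h
    · exact hf U
  | cons u l ih =>
    rw [List.nodup_cons] at hl
    have ih' := ih hl.2
    by_cases hg : good N D u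
    · simp only [EE, if_pos hg]
      rw [avT_split u]
      have hpt : ∀ (T : Q n → Q n) (β : Fin n → Bool),
          (if BadEv N f (u :: l) D U (Function.update T u β) then (1 : ℝ) else 0) ≤
          (1 - cl (4 * ys univ (dl N D u) β)) / 2 *
            (if BadEv N f l (upd u β 1 D) U T then (1 : ℝ) else 0) +
          (1 + cl (4 * ys univ (dl N D u) β)) / 2 *
            (if BadEv N f l (upd u β (-1) D) U T then (1 : ℝ) else 0) := by
        intro T β
        have hw1 := wp_nonneg (4 * ys univ (dl N D u) β)
        have hw2 := wm_nonneg (4 * ys univ (dl N D u) β)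
        by_cases hb : BadEv N f (u :: l) D U (Function.update T u β)
        · have hc : ∀ c : ℤ, (c = 1 ∨ c = -1) → BadEv N f l (upd u β c D) U T := by
            intro c hc χ hχ
            have h1 := hb (Function.update χ u c) (by
              intro v
              by_cases hv : v = u
              · subst hv; simpa using hc
              · rw [Function.update_of_ne hv]; exact hχ v)
            simp only [run, if_pos hg, Function.update_self] at h1
            rw [run_congr N (T' := T) (χ' := χ) l] at h1
            · exact h1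
            · intro w hw
              have hwu : w ≠ u := fun e => hl.1 (e ▸ hw)
              rw [Function.update_of_ne hwu, Function.update_of_ne hwu]
              exact ⟨rfl, rfl⟩
          rw [if_pos hb, if_pos (hc 1 (Or.inl rfl)), if_pos (hc (-1) (Or.inr rfl))]
          linarith
        · rw [if_neg hb]
          apply add_nonneg
          · apply mul_nonneg hw1; split_ifs <;> norm_num
          · apply mul_nonneg hw2; split_ifs <;> norm_num
      calc _ ≤ avT (fun T => av (fun β => (1 - cl (4 * ys univ (dl N D u) β)) / 2 *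
            (if BadEv N f l (upd u β 1 D) U T then (1 : ℝ) else 0) +
          (1 + cl (4 * ys univ (dl N D u) β)) / 2 *
            (if BadEv N f l (upd u β (-1) D) U T then (1 : ℝ) else 0))) :=
            avT_mono fun T => av_mono fun β => hpt T β
        _ ≤ _ := by
            rw [avT_av_comm]
            unfold stepE
            refine av_mono fun β => ?_
            rw [avT_add, avT_mul_left, avT_mul_left]
            exact add_le_add (mul_le_mul_of_nonneg_left (ih' _ _) (wp_nonneg _))
              (mul_le_mul_of_nonneg_left (ih' _ _) (wm_nonneg _))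
    · simp only [EE, if_neg hg]
      have : ∀ T, BadEv N f (u :: l) D U T ↔ BadEv N f l D (insert u U) T := by
        intro T
        unfold BadEv
        simp only [run, if_neg hg]
      simp only [this]
      exact ih' _ _

lemma EE_sum (N : ℝ) {ι : Type*} (s : Finset ι) (f : ι → Finset (Q n) → ℝ) (l : List (Q n))
    (D : Q n → ℤ) (U : Finset (Q n)) :
    EE N (fun U => ∑ k ∈ s, f k U) l D U = ∑ k ∈ s, EE N (f k) l D U := by
  induction l generalizing D U with
  | nil => rfl
  | cons u l ih =>
    simp only [EE]
    split_ifs with hg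
    · simp only [ih]
      rw [stepE_sum]
    · exact ih _ _

/-! ### invariants of the run -/

lemma run_in {N : ℝ} (hN : 6009 ≤ N) (T : Q n → Q n) (χ : Q n → ℤ)
    (hχ : ∀ v, χ v = 1 ∨ χ v = -1) (l : List (Q n)) (D : Q n → ℤ) (U : Finset (Q n))
    (hD : ∀ v, ((D v : ℤ) : ℝ) ^ 2 < N) (v : Q n) :
    (((run N T χ l D U).1 v : ℤ) : ℝ) ^ 2 < N := by
  induction l generalizing D U with
  | nil => exact hD v
  | cons u l ih =>
    simp only [run]
    split_ifs with hg
    · exact ih _ _ (fun v => upd_in hN hg hD _ (hχ u) v)
    · exact ih _ _ hD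

lemma run_subset (N : ℝ) (T : Q n → Q n) (χ : Q n → ℤ) (l : List (Q n)) (D : Q n → ℤ)
    (U : Finset (Q n)) : U ⊆ (run N T χ l D U).2 ∧
      ∀ x ∈ (run N T χ l D U).2, x ∈ U ∨ x ∈ l := by
  induction l generalizing D U with
  | nil => exact ⟨Subset.rfl, fun x hx => Or.inl hx⟩
  | cons u l ih =>
    simp only [run]
    split_ifs with hg
    · obtain ⟨h1, h2⟩ := ih (upd u (T u) (χ u) D) U
      refine ⟨h1, fun x hx => ?_⟩
      rcases h2 x hx with h | h
      · left; exact h
      · right; simp [h]
    · obtain ⟨h1, h2⟩ := ih D (insert u U)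
      refine ⟨(subset_insert _ _).trans h1, fun x hx => ?_⟩
      rcases h2 x hx with h | h
      · rw [mem_insert] at h
        rcases h with rfl | h
        · right; simp
        · left; exact h
      · right; simp [h]

/-- the final value of the running sum -/
lemma run_value (N : ℝ) (T : Q n → Q n) (χ : Q n → ℤ) (l : List (Q n)) (hl : l.Nodup)
    (D : Q n → ℤ) (U : Finset (Q n)) (hU : ∀ w ∈ l, w ∉ U) (v : Q n) :
    (run N T χ l D U).1 v = D v +
      ∑ i, if fl v i ∈ l ∧ fl v i ∉ (run N T χ l D U).2 ∧ T (fl v i) i = true
        then χ (fl v i) else 0 := by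
  induction l generalizing D U with
  | nil => simp [run]
  | cons u l ih =>
    rw [List.nodup_cons] at hl
    simp only [run]
    split_ifs with hg
    · have hU' : ∀ w ∈ l, w ∉ U := fun w hw => hU w (by simp [hw])
      rw [ih hl.2 _ _ hU']
      have huU : u ∉ (run N T χ l (upd u (T u) (χ u) D) U).2 := by
        intro h
        rcases (run_subset N T χ l (upd u (T u) (χ u) D) U).2 u h with h | h
        · exact hU u (by simp) h
        · exact hl.1 h
      set R := (run N T χ l (upd u (T u) (χ u) D) U).2
      unfold upd
      rw [add_assoc, ← sum_add_distrib]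
      congr 1
      refine sum_congr rfl fun i _ => ?_
      by_cases hv : v = fl u i
      · subst hv
        rw [fl_fl]
        simp [hl.1, huU]
      · have hv' : fl v i ≠ u := fun e => hv (by rw [← e, fl_fl])
        simp [hv, hv']
    · have hU' : ∀ w ∈ l, w ∉ insert u U := by
        intro w hw
        rw [mem_insert, not_or]
        exact ⟨fun e => hl.1 (e ▸ hw), hU w (by simp [hw])⟩
      rw [ih hl.2 _ _ hU']
      have huU : u ∈ (run N T χ l D (insert u U)).2 :=
        (run_subset N T χ l D (insert u U)).1 (mem_insert_self _ _)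
      set R := (run N T χ l D (insert u U)).2
      congr 1
      refine sum_congr rfl fun i _ => ?_
      by_cases hv : fl v i = u
      · rw [hv]; simp [huU]
      · simp [hv]

end Pool.Agent.Lib.MP_3166d6_co
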